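import Pool.Agent.Helper83.LN6.CDefs
import Pool.Agent.Helper96.LN3.Wind

/-!
# LN6-C2 (MP_730da0_ag): algebra of the winding numbers, coloured version

Port of Helper96/LN3/Wind.lean (`wd_conj`, `wn_conj`, `wn_comm`, `per_pow`, `pow_p` are used from there).
-/

namespace Pool.Agent.Helper83.LN6

open Pool.Agent.Helper96.LN3

variable {F : Type} {R : F → F → Prop} {e : F → ℂ}

theorem CGood.mul (he : ∀ a b, R a b → e a = e b → a = b) {g h : WG F} (hg : CGood R e g)
    (hh : CGood R e h) : CGood R e (g * h) := by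
  have hne : ∀ a b, R a b → a ≠ b → e a - e b ≠ 0 := fun a b hR hab =>
    sub_ne_zero.2 fun H => hab (he a b hR H)
  refine ⟨fun a b => ?_, fun a b hR hab => ?_, fun a b => ?_, fun a b hab => ?_⟩
  · rw [WG.mul_p, Equiv.Perm.mul_apply, Equiv.Perm.mul_apply, hg.rel, hh.rel]
  · have hpab : h.p a ≠ h.p b := fun H => hab (h.p.injective H)
    have hR2 : R (h.p a) (h.p b) := (hh.rel a b).2 hR
    rw [WG.mul_d, Complex.exp_add, hh.exp a b hR hab, hg.exp _ _ hR2 hpab, WG.mul_p,
      Equiv.Perm.mul_apply, Equiv.Perm.mul_apply, mul_comm]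
    exact div_mul_div_cancel₀ (hne _ _ hR2 hpab)
  · rw [WG.mul_d, WG.mul_d, hh.sym a b, hg.sym]
  · rw [WG.mul_d, hh.zero a b hab, hg.zero, add_zero]
    rintro ⟨h1, h2⟩
    exact hab ⟨(hh.rel a b).1 h1, fun h3 => h2 (by rw [h3])⟩

theorem CGood.one (he : ∀ a b, R a b → e a = e b → a = b) : CGood R e (1 : WG F) := by
  refine ⟨fun a b => Iff.rfl, fun a b hR hab => ?_, fun a b => rfl, fun a b _ => rfl⟩
  have h1 : e a - e b ≠ 0 := sub_ne_zero.2 fun H => hab (he a b hR H)
  simp [h1]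

theorem CGood.inv (he : ∀ a b, R a b → e a = e b → a = b) {g : WG F} (hg : CGood R e g) :
    CGood R e g⁻¹ := by
  have hrel : ∀ a b, R (g⁻¹.p a) (g⁻¹.p b) ↔ R a b := fun a b => by
    rw [← hg.rel]
    simp
  refine ⟨hrel, fun a b hR hab => ?_, fun a b => ?_, fun a b hab => ?_⟩
  · have hne : g⁻¹.p a ≠ g⁻¹.p b := fun H => hab (g⁻¹.p.injective H)
    have h2 := hg.exp _ _ ((hrel a b).2 hR) hne
    rw [WG.inv_p] at h2 ⊢
    have e1 : ∀ x, g.p (g.p⁻¹ x) = x := fun x => Equiv.apply_symm_apply g.p x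
    rw [e1, e1] at h2
    rw [WG.inv_d, Complex.exp_neg, h2, inv_div]
  · rw [WG.inv_d, WG.inv_d, hg.sym]
  · rw [WG.inv_d, hg.zero, neg_zero]
    rintro ⟨h1, h2⟩
    exact hab ⟨(hrel a b).1 h1, fun h3 => h2 (by rw [h3])⟩

theorem CGood.pow (he : ∀ a b, R a b → e a = e b → a = b) {g : WG F} (hg : CGood R e g) (n : ℕ) :
    CGood R e (g ^ n) := by
  induction n with
  | zero => rw [pow_zero]; exact CGood.one he
  | succ n ih => rw [pow_succ]; exact CGood.mul he ih hg

theorem CGood.prod (he : ∀ a b, R a b → e a = e b → a = b) (l : List (WG F)) (hl : ∀ g ∈ l, CGood R e g) :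
    CGood R e l.prod := by
  induction l with
  | nil => exact CGood.one he
  | cons g l ih =>
    rw [List.prod_cons]
    exact CGood.mul he (hl g List.mem_cons_self) (ih fun h hh => hl h (List.mem_cons_of_mem _ hh))

theorem CGood.wd_eq [Finite F] (he : ∀ a b, R a b → e a = e b → a = b) {g : WG F} (hg : CGood R e g)
    (a b : F) : wd g a b = wn g a b := by
  have hG := CGood.pow he hg (per F)
  have h2 : (2 * Real.pi * Complex.I : ℂ) ≠ 0 := Complex.two_pi_I_ne_zero
  have key : ∃ n : ℤ, wd g a b = n := by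
    by_cases hab : R a b ∧ a ≠ b
    · have h1 := hG.exp a b hab.1 hab.2
      have hp : (g ^ per F).p = 1 := by rw [pow_p, per_pow]
      have h3 : e a - e b ≠ 0 := sub_ne_zero.2 fun H => hab.2 (he a b hab.1 H)
      rw [hp, Equiv.Perm.one_apply, Equiv.Perm.one_apply, div_self h3, Complex.exp_eq_one_iff] at h1
      obtain ⟨n, hn⟩ := h1
      refine ⟨n, ?_⟩
      unfold wd
      rw [hn, mul_div_assoc, div_self h2, mul_one]
    · refine ⟨0, ?_⟩
      unfold wd
      rw [hG.zero a b hab]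
      simp
  obtain ⟨n, hn⟩ := key
  have : wn g a b = n := by
    unfold wn
    rw [hn, Complex.intCast_re, round_intCast]
  rw [this, hn]

theorem CGood.wn_sym [Finite F] (he : ∀ a b, R a b → e a = e b → a = b) {g : WG F} (hg : CGood R e g)
    (a b : F) : wn g a b = wn g b a := by
  unfold wn wd
  rw [(CGood.pow he hg (per F)).sym a b]

theorem CGood.pow_d [Finite F] (he : ∀ a b, R a b → e a = e b → a = b) {g : WG F} (hg : CGood R e g)
    (a b : F) : (g ^ per F).d a b = 2 * Real.pi * Complex.I * wn g a b := by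
  have h2 : (2 * Real.pi * Complex.I : ℂ) ≠ 0 := Complex.two_pi_I_ne_zero
  rw [← CGood.wd_eq he hg a b]
  unfold wd
  rw [mul_div_cancel₀ _ h2]

end Pool.Agent.Helper83.LN6
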