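import Pool.Agent.Helper83.LN6.CLog
import Pool.Agent.Helper83.LN6.CWind
import Pool.Agent.Helper96.LN3.FamX

/-!
# LN6-C3 (MP_730da0_ag): the two parameter family of positions and logarithms of a coloured system

Port of `exists_fam`, `fam_map` (Helper96/LN3/FamX.lean) and of Helper96/LN3/FamOf.lean to an arbitrary `UFam` and a coloured system.
-/

namespace Pool.Agent.Helper83.LN6

open Pool.Agent.Helper2.LN Pool.Agent.Helper96.LN3

variable {k : ℕ}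

private theorem isOpen_hl : IsOpen Hl := isOpen_lt Complex.continuous_re continuous_const

private theorem convex_hl : Convex ℝ Hl := convex_halfSpace_re_lt (0 : ℝ)

private theorem isOpen_hh : IsOpen (Hl ×ˢ Hl) := isOpen_hl.prod isOpen_hl

private theorem convex_hh : Convex ℝ (Hl ×ˢ Hl) := convex_hl.prod convex_hl

private theorem neg_one_hl : (-1 : ℂ) ∈ Hl := by
  show (-1 : ℂ).re < 0
  simp

private theorem sc_hh : SimplyConnectedSpace (Hl ×ˢ Hl : Set (ℂ × ℂ)) := by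
  have h : ContractibleSpace (Hl ×ˢ Hl : Set (ℂ × ℂ)) :=
    convex_hh.contractibleSpace ⟨(-1, -1), neg_one_hl, neg_one_hl⟩
  infer_instance

private theorem lpc_hh : LocallyPathConnectedSpace (Hl ×ˢ Hl : Set (ℂ × ℂ)) :=
  isOpen_hh.locallyPathConnectedSpace

private theorem add_hl (u : ℂ) (hu : u ∈ Hl) (n : ℕ) : u + n * (Real.pi * Complex.I) ∈ Hl := by
  have h : (u + n * (Real.pi * Complex.I)).re = u.re := by simp
  show (u + n * (Real.pi * Complex.I)).re < 0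
  rw [h]
  exact hu

private theorem mul_hl (z : ℂ) (hz : z ∈ Hl) (p : ℕ) (hp : 0 < p) : (p : ℂ) * z ∈ Hl := by
  have h : ((p : ℂ) * z).re = p * z.re := by simp
  show ((p : ℂ) * z).re < 0
  rw [h]
  have h1 : z.re < 0 := hz
  have h2 : (0 : ℝ) < p := by exact_mod_cast hp
  exact mul_neg_of_pos_of_neg h2 h1

/-! ## sections over a `UFam` -/

section

variable (U : UFam k) {W : Type} [TopologicalSpace W]

private noncomputable def ufC : C((Hl ×ˢ Hl : Set (ℂ × ℂ)), Fin k → ℂ) :=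
  ⟨fun z => U.c z.1.1 z.1.2, continuousOn_iff_continuous_domRestrict.1 U.diff.continuousOn⟩

private theorem ufC_conf (z : (Hl ×ˢ Hl : Set (ℂ × ℂ))) : ufC U z ∈ Conf k :=
  U.conf z.1.1 z.2.1 z.1.2 z.2.2

theorem exists_uf (S : Sys k W) : ∃ X : S.F (base k) → ℂ → ℂ → W, IsUF U.c S X := by
  classical
  have h1 := sc_hh
  have h2 := lpc_hh
  have key : ∀ φ : S.F (base k), ∃ s : C((Hl ×ˢ Hl : Set (ℂ × ℂ)), W),
      s ⟨(-1, -1), neg_one_hl, neg_one_hl⟩ = S.val φ (U.c (-1) (-1)) ∧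
      ∀ z, s z ∈ S.F (ufC U z) := by
    intro φ
    exact S.lift _ (ufC U) (ufC_conf U) ⟨(-1, -1), neg_one_hl, neg_one_hl⟩
      (S.val φ (U.c (-1) (-1))) (S.val_mem φ _ U.gen)
  choose s hs1 hs2 using key
  refine ⟨fun φ u v => if h : (u, v) ∈ Hl ×ˢ Hl then s φ ⟨(u, v), h⟩ else φ.1, ?_, ?_, ?_⟩
  · intro φ
    rw [continuousOn_iff_continuous_domRestrict]
    refine (s φ).continuous.congr fun z => ?_
    have hz : (z.1.1, z.1.2) ∈ Hl ×ˢ Hl := z.2
    change s φ z = if h : (z.1.1, z.1.2) ∈ Hl ×ˢ Hl then s φ ⟨(z.1.1, z.1.2), h⟩ else φ.1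
    rw [dif_pos hz]
  · intro φ u hu v hv
    have h : (u, v) ∈ Hl ×ˢ Hl := ⟨hu, hv⟩
    simp only [dif_pos h]
    exact hs2 φ ⟨(u, v), h⟩
  · intro φ
    have h : ((-1 : ℂ), (-1 : ℂ)) ∈ Hl ×ˢ Hl := ⟨neg_one_hl, neg_one_hl⟩
    simp only [dif_pos h]
    exact hs1 φ

private noncomputable def ufS (S : Sys k W) (X : S.F (base k) → ℂ → ℂ → W) (hX : IsUF U.c S X)
    (φ : S.F (base k)) : C((Hl ×ˢ Hl : Set (ℂ × ℂ)), W) :=
  ⟨fun z => X φ z.1.1 z.1.2, continuousOn_iff_continuous_domRestrict.1 (hX.cont φ)⟩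

theorem uf_map {W' : Type} [TopologicalSpace W'] (S : Sys k W) (S' : Sys k W')
    (X : S.F (base k) → ℂ → ℂ → W) (hX : IsUF U.c S X)
    (X' : S'.F (base k) → ℂ → ℂ → W') (hX' : IsUF U.c S' X') (p : W → W') (hp : Continuous p)
    (hF : ∀ q ∈ Conf k, ∀ w ∈ S.F q, p w ∈ S'.F q) (φ : S.F (base k)) (u v : ℂ) (hu : u ∈ Hl) (hv : v ∈ Hl) :
    p (X φ u v) = X' ⟨p φ, hF _ (base_mem k) _ φ.2⟩ u v := by
  have h1 := sc_hh
  have h2 : PreconnectedSpace (Hl ×ˢ Hl : Set (ℂ × ℂ)) := inferInstance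
  have h3 := S'.uniq _ (ufC U) (ufC_conf U)
    ((⟨p, hp⟩ : C(W, W')).comp (ufS U S X hX φ))
    (ufS U S' X' hX' ⟨p φ, hF _ (base_mem k) _ φ.2⟩)
    (fun z => hF _ (ufC_conf U z) _ (hX.mem φ z.1.1 z.2.1 z.1.2 z.2.2))
    (fun z => hX'.mem _ z.1.1 z.2.1 z.1.2 z.2.2)
    ⟨⟨(-1, -1), neg_one_hl, neg_one_hl⟩, by
      change p (X φ (-1) (-1)) = X' ⟨p φ, hF _ (base_mem k) _ φ.2⟩ (-1) (-1)
      rw [hX.one, hX'.one]
      exact val_map S S' p hp hF φ _ U.gen⟩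
  exact congrArg (fun s : C((Hl ×ˢ Hl : Set (ℂ × ℂ)), W') => s ⟨(u, v), hu, hv⟩) h3

theorem uf_inj (S : Sys k W) (X : S.F (base k) → ℂ → ℂ → W) (hX : IsUF U.c S X) (φ ψ : S.F (base k))
    (u v : ℂ) (hu : u ∈ Hl) (hv : v ∈ Hl) (h : X φ u v = X ψ u v) : φ = ψ := by
  have h1 := sc_hh
  have h2 : PreconnectedSpace (Hl ×ˢ Hl : Set (ℂ × ℂ)) := inferInstance
  have h3 := S.uniq _ (ufC U) (ufC_conf U) (ufS U S X hX φ) (ufS U S X hX ψ)
    (fun z => hX.mem φ z.1.1 z.2.1 z.1.2 z.2.2) (fun z => hX.mem ψ z.1.1 z.2.1 z.1.2 z.2.2)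
    ⟨⟨(u, v), hu, hv⟩, h⟩
  have h4 : X φ (-1) (-1) = X ψ (-1) (-1) :=
    congrArg (fun s : C((Hl ×ˢ Hl : Set (ℂ × ℂ)), W) => s ⟨(-1, -1), neg_one_hl, neg_one_hl⟩) h3
  rw [hX.one, hX.one] at h4
  exact S.val_inj φ ψ _ U.gen h4

/-- The two words of a `UFam` commute in every system. -/
theorem uf_comm (S : Sys k W) : (U.wu.map S.s).prod * (U.wv.map S.s).prod =
    (U.wv.map S.s).prod * (U.wu.map S.s).prod := by
  obtain ⟨X, hX⟩ := exists_uf U S
  refine Equiv.ext fun φ => ?_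
  have hm : (-1 : ℂ) + Real.pi * Complex.I ∈ Hl := by
    have h := add_hl (-1) neg_one_hl 1
    simpa using h
  refine uf_inj U S X hX _ _ (-1) (-1) neg_one_hl neg_one_hl ?_
  have h1 := U.trv S X hX φ (-1 + Real.pi * Complex.I) hm (-1) neg_one_hl
  rw [U.tru S X hX _ (-1) neg_one_hl (-1) neg_one_hl] at h1
  have h2 := U.tru S X hX φ (-1) neg_one_hl (-1 + Real.pi * Complex.I) hm
  rw [U.trv S X hX _ (-1) neg_one_hl (-1) neg_one_hl] at h2
  rw [Equiv.Perm.mul_apply, Equiv.Perm.mul_apply, ← h1, ← h2]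

private theorem uf_tru (S : Sys k W) (X : S.F (base k) → ℂ → ℂ → W) (hX : IsUF U.c S X) (n : ℕ)
    (φ : S.F (base k)) (u v : ℂ) (hu : u ∈ Hl) (hv : v ∈ Hl) :
    X φ (u + n * (Real.pi * Complex.I)) v = X ((((U.wu.map S.s).prod) ^ n) φ) u v := by
  induction n generalizing φ with
  | zero =>
    have h : u + ((0 : ℕ) : ℂ) * (Real.pi * Complex.I) = u := by simp
    rw [h, pow_zero]
    rfl
  | succ n ih =>
    have h : u + ((n + 1 : ℕ) : ℂ) * (Real.pi * Complex.I)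
        = (u + n * (Real.pi * Complex.I)) + Real.pi * Complex.I := by
      push_cast
      ring
    rw [h, U.tru S X hX φ _ (add_hl u hu n) v hv, ih, pow_succ]
    rfl

private theorem uf_trv (S : Sys k W) (X : S.F (base k) → ℂ → ℂ → W) (hX : IsUF U.c S X) (n : ℕ)
    (φ : S.F (base k)) (u v : ℂ) (hu : u ∈ Hl) (hv : v ∈ Hl) :
    X φ u (v + n * (Real.pi * Complex.I)) = X ((((U.wv.map S.s).prod) ^ n) φ) u v := by
  induction n generalizing φ with
  | zero =>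
    have h : v + ((0 : ℕ) : ℂ) * (Real.pi * Complex.I) = v := by simp
    rw [h, pow_zero]
    rfl
  | succ n ih =>
    have h : v + ((n + 1 : ℕ) : ℂ) * (Real.pi * Complex.I)
        = (v + n * (Real.pi * Complex.I)) + Real.pi * Complex.I := by
      push_cast
      ring
    rw [h, U.trv S X hX φ u hu _ (add_hl v hv n), ih, pow_succ]
    rfl

end

/-! ## words -/

/-- The word `l` as an element of `WG`. -/
noncomputable def CSys.ww (Z : CSys k) (l : List ℕ) : WG Z.B := (l.map Z.wg).prod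

variable (Z : CSys k)

theorem ww_p (l : List ℕ) : (Z.ww l).p = (l.map Z.S.s).prod := by
  unfold CSys.ww
  induction l with
  | nil => rfl
  | cons i l ih =>
    rw [List.map_cons, List.prod_cons, List.map_cons, List.prod_cons, WG.mul_p, ih]
    rfl

theorem pt_inj' : ∀ a b, Z.Same a b → Z.pt a = Z.pt b → a = b := fun _ _ h h' => pt_inj Z h h'

theorem ww_good (l : List ℕ) (hl : ∀ i ∈ l, i + 1 < k) : CGood Z.Same Z.pt (Z.ww l) := by
  refine CGood.prod (pt_inj' Z) _ fun g hg => ?_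
  obtain ⟨i, hi, rfl⟩ := List.mem_map.1 hg
  exact wg_good Z i (hl i hi)

/-- The action of a word on a point of the system of the logarithms. -/
theorem ww_lp (l : List ℕ) (hl : ∀ i ∈ l, i + 1 < k) (a b : Z.B) (x : ℂ) (hs : Z.Same a b)
    (h : Complex.exp x = Z.pt a - Z.pt b) :
    ∃ (hs' : Z.Same ((Z.ww l).p a) ((Z.ww l).p b))
      (h' : Complex.exp (x + (Z.ww l).d a b) = Z.pt ((Z.ww l).p a) - Z.pt ((Z.ww l).p b)),
      (l.map Z.lS.s).prod (Z.lp a b x hs h) =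
        Z.lp ((Z.ww l).p a) ((Z.ww l).p b) (x + (Z.ww l).d a b) hs' h' := by
  induction l with
  | nil =>
    have e : x + (Z.ww []).d a b = x := add_zero x
    have e2 : (Z.ww []).p = 1 := rfl
    refine ⟨hs, by rw [e]; exact h, Subtype.ext (Prod.ext rfl (Prod.ext rfl e.symm))⟩
  | cons i l ih =>
    obtain ⟨c1, h1, h2⟩ := ih fun j hj => hl j (List.mem_cons_of_mem _ hj)
    obtain ⟨c3, h3, h4⟩ := s_lp Z i (hl i List.mem_cons_self) _ _ _ c1 h1
    have e0 : Z.ww (i :: l) = Z.wg i * Z.ww l := by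
      unfold CSys.ww
      rw [List.map_cons, List.prod_cons]
    have e : x + (Z.ww (i :: l)).d a b = x + (Z.ww l).d a b + (Z.wg i).d ((Z.ww l).p a) ((Z.ww l).p b) := by
      rw [e0, WG.mul_d]
      ring
    have e2 : (((i :: l).map Z.lS.s).prod) (Z.lp a b x hs h) =
        Z.lp (Z.S.s i ((Z.ww l).p a)) (Z.S.s i ((Z.ww l).p b)) _ c3 h3 := by
      rw [List.map_cons, List.prod_cons, Equiv.Perm.mul_apply, h2, h4]
    have e3 : ∀ y, (Z.ww (i :: l)).p y = Z.S.s i ((Z.ww l).p y) := fun y => by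
      rw [e0]
      rfl
    refine ⟨?_, ?_, ?_⟩
    · rw [e3, e3]
      exact c3
    · rw [e, e3, e3]
      exact h3
    · rw [e2]
      refine Subtype.ext (Prod.ext ?_ (Prod.ext ?_ e.symm))
      · exact congrArg Subtype.val (e3 a).symm
      · exact congrArg Subtype.val (e3 b).symm

private theorem ww_pow_lp (l : List ℕ) (hl : ∀ i ∈ l, i + 1 < k) (n : ℕ) (a b : Z.B) (x : ℂ)
    (hs : Z.Same a b) (h : Complex.exp x = Z.pt a - Z.pt b) :
    ((((l.map Z.lS.s).prod ^ n) (Z.lp a b x hs h) : Z.lS.F (base k)) : (ℂ × ℂ) × (ℂ × ℂ) × ℂ) =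
      (((((Z.ww l) ^ n).p a : Z.B) : ℂ × ℂ), ((((Z.ww l) ^ n).p b : Z.B) : ℂ × ℂ),
        x + ((Z.ww l) ^ n).d a b) := by
  induction n generalizing a b x with
  | zero =>
    simp only [pow_zero, Equiv.Perm.one_apply, WG.one_p, WG.one_d, add_zero]
    rfl
  | succ n ih =>
    obtain ⟨hs', h', h4⟩ := ww_lp Z l hl a b x hs h
    have h5 : ((l.map Z.lS.s).prod ^ (n + 1)) (Z.lp a b x hs h) =
        ((l.map Z.lS.s).prod ^ n) ((l.map Z.lS.s).prod (Z.lp a b x hs h)) := by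
      rw [pow_succ]
      rfl
    rw [h5, h4, ih]
    have h6 : (Z.ww l) ^ (n + 1) = (Z.ww l) ^ n * Z.ww l := pow_succ _ _
    rw [h6]
    simp only [WG.mul_p, WG.mul_d, Equiv.Perm.mul_apply, ← add_assoc]

theorem ww_comm (U : UFam k) : Z.ww U.wu * Z.ww U.wv = Z.ww U.wv * Z.ww U.wu := by
  refine WG.ext ?_ (funext fun a => funext fun b => ?_)
  · rw [WG.mul_p, WG.mul_p, ww_p, ww_p, uf_comm]
  · rw [WG.mul_d, WG.mul_d]
    have hu := ww_good Z U.wu U.ltu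
    have hv := ww_good Z U.wv U.ltv
    by_cases hab : Z.Same a b ∧ a ≠ b
    swap
    · have hn : ∀ g : WG Z.B, CGood Z.Same Z.pt g → ¬ (Z.Same (g.p a) (g.p b) ∧ g.p a ≠ g.p b) := by
        rintro g hg ⟨h1, h2⟩
        exact hab ⟨(hg.rel a b).1 h1, fun h3 => h2 (by rw [h3])⟩
      rw [hu.zero a b hab, hv.zero a b hab, hu.zero _ _ (hn _ hv), hv.zero _ _ (hn _ hu)]
    obtain ⟨hs, hab⟩ := hab
    have h0 := exp_log_pt Z hs hab
    set l := Complex.log (Z.pt a - Z.pt b) with hl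
    obtain ⟨c1, e1, h1⟩ := ww_lp Z U.wv U.ltv a b l hs h0
    obtain ⟨c2, e2, h2⟩ := ww_lp Z U.wu U.ltu _ _ _ c1 e1
    obtain ⟨c3, e3, h3⟩ := ww_lp Z U.wu U.ltu a b l hs h0
    obtain ⟨c4, e4, h4⟩ := ww_lp Z U.wv U.ltv _ _ _ c3 e3
    have h5 := DFunLike.congr_fun (uf_comm U Z.lS) (Z.lp a b l hs h0)
    rw [Equiv.Perm.mul_apply, Equiv.Perm.mul_apply, h1, h2, h3, h4] at h5
    have h6 := congrArg (fun w : Z.lS.F (base k) => (w : (ℂ × ℂ) × (ℂ × ℂ) × ℂ).2.2) h5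
    have h7 : l + (Z.ww U.wv).d a b + (Z.ww U.wu).d ((Z.ww U.wv).p a) ((Z.ww U.wv).p b) =
        l + (Z.ww U.wu).d a b + (Z.ww U.wv).d ((Z.ww U.wu).p a) ((Z.ww U.wu).p b) := h6
    linear_combination h7

/-! ## holomorphy -/

private theorem cf_hol (V : Set ℂ) (hV : IsOpen V)
    (γ : ℂ → Fin k → ℂ) (hγ : DifferentiableOn ℂ γ V) (hγC : ∀ z ∈ V, γ z ∈ Conf k)
    (f : ℂ → ℂ × ℂ) (hf : ContinuousOn f V) (hfF : ∀ z ∈ V, f z ∈ Z.S.F (γ z)) :
    DifferentiableOn ℂ (fun z => (f z).2) V := by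
  intro z₀ hz₀
  obtain ⟨r, hr, hball⟩ := Metric.isOpen_iff.1 (isOpen_Conf k) (γ z₀) (hγC z₀ hz₀)
  obtain ⟨σ, hσc, hσF, hσ0⟩ := Z.S.exists_sec (Metric.ball (γ z₀) r) (convex_ball _ _) hball (γ z₀)
    (Metric.mem_ball_self hr) (f z₀) (hfF z₀ hz₀)
  have hσd := Z.hol (Metric.ball (γ z₀) r) Metric.isOpen_ball hball σ hσc hσF
  have hγc : ContinuousAt γ z₀ := hγ.continuousOn.continuousAt (hV.mem_nhds hz₀)
  obtain ⟨δ, hδ, hδb⟩ := Metric.mem_nhds_iff.1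
    (Filter.inter_mem (hV.mem_nhds hz₀) (hγc (Metric.ball_mem_nhds _ hr)))
  have hpre : PreconnectedSpace (Metric.ball z₀ δ) :=
    Subtype.preconnectedSpace (convex_ball z₀ δ).isPreconnected
  have hγB : ContinuousOn γ (Metric.ball z₀ δ) := hγ.continuousOn.mono fun z hz => (hδb hz).1
  have hfB : ContinuousOn f (Metric.ball z₀ δ) := hf.mono fun z hz => (hδb hz).1
  have hσB : ContinuousOn (fun z => σ (γ z)) (Metric.ball z₀ δ) :=
    hσc.comp hγB fun z hz => (hδb hz).2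
  have huniq := Z.S.uniq (Metric.ball z₀ δ) ⟨fun z => γ z, hγB.domRestrict⟩
    (fun z => hγC z (hδb z.2).1) ⟨fun z => f z, hfB.domRestrict⟩
    ⟨fun z => σ (γ z), hσB.domRestrict⟩ (fun z => hfF z (hδb z.2).1) (fun z => hσF _ (hδb z.2).2)
    ⟨⟨z₀, Metric.mem_ball_self hδ⟩, hσ0.symm⟩
  have heq : (fun z => (f z).2) =ᶠ[nhds z₀] fun z => (σ (γ z)).2 := by
    filter_upwards [Metric.ball_mem_nhds z₀ hδ] with z hz
    have h1 : f z = σ (γ z) := DFunLike.congr_fun huniq ⟨z, hz⟩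
    rw [h1]
  have h1 : DifferentiableAt ℂ (fun q => (σ q).2) (γ z₀) :=
    (hσd _ (Metric.mem_ball_self hr)).differentiableAt (Metric.ball_mem_nhds _ hr)
  have h2 : DifferentiableAt ℂ γ z₀ := (hγ z₀ hz₀).differentiableAt (hV.mem_nhds hz₀)
  exact ((h1.comp z₀ h2).congr_of_eventuallyEq heq).differentiableWithinAt

theorem exists_CFam (U : UFam k)
    (hc : Z.ww U.wu * Z.ww U.wv = Z.ww U.wv * Z.ww U.wu := ww_comm Z U) :
    ∃ (W : Z.B → ℂ → ℂ → ℂ) (L : Z.B → Z.B → ℂ → ℂ → ℂ),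
      CFam Z.Same (Z.ww U.wu).p (Z.ww U.wv).p (wn (Z.ww U.wu)) (wn (Z.ww U.wv)) (per Z.B) W L := by
  classical
  obtain ⟨X, hX⟩ := exists_uf U Z.S
  obtain ⟨Y, hY⟩ := exists_uf U Z.lS
  have he := pt_inj' Z
  have hgi := ww_good Z U.wu U.ltu
  have hgj := ww_good Z U.wv U.ltv
  have hfst : ∀ (φ : Z.lS.F (base k)), ∀ u ∈ Hl, ∀ v ∈ Hl,
      (Y φ u v).1 = X ⟨(φ : (ℂ × ℂ) × (ℂ × ℂ) × ℂ).1, φ.2.1⟩ u v := fun φ u hu v hv =>
    uf_map U Z.lS Z.S Y hY X hX (fun w => w.1) continuous_fst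
      (fun q _ w hw => hw.1) φ u v hu hv
  have hsnd : ∀ (φ : Z.lS.F (base k)), ∀ u ∈ Hl, ∀ v ∈ Hl,
      (Y φ u v).2.1 = X ⟨(φ : (ℂ × ℂ) × (ℂ × ℂ) × ℂ).2.1, φ.2.2.1⟩ u v := fun φ u hu v hv =>
    uf_map U Z.lS Z.S Y hY X hX (fun w => w.2.1) (continuous_fst.comp continuous_snd)
      (fun q _ w hw => hw.2.1) φ u v hu hv
  have hexp : ∀ (a b : Z.B) (l : ℂ) (n : ℤ), Complex.exp l = Z.pt a - Z.pt b →
      Complex.exp (l + 2 * Real.pi * Complex.I * n) = Z.pt a - Z.pt b := by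
    intro a b l n h
    rw [← h, Complex.exp_eq_exp_iff_exists_int]
    exact ⟨n, by ring⟩
  -- the shift of the logarithms
  have hshift : ∀ (a b : Z.B) (l : ℂ) (hs : Z.Same a b) (h : Complex.exp l = Z.pt a - Z.pt b) (n : ℤ)
      (h' : Complex.exp (l + 2 * Real.pi * Complex.I * n) = Z.pt a - Z.pt b) (u v : ℂ), u ∈ Hl → v ∈ Hl →
      (Y (Z.lp a b (l + 2 * Real.pi * Complex.I * n) hs h') u v).2.2 =
        (Y (Z.lp a b l hs h) u v).2.2 + 2 * Real.pi * Complex.I * n := by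
    intro a b l hs h n h' u v hu hv
    have hp : Continuous (fun w : (ℂ × ℂ) × (ℂ × ℂ) × ℂ =>
        (w.1, w.2.1, w.2.2 + 2 * Real.pi * Complex.I * n)) := by
      fun_prop
    have hF : ∀ q ∈ Conf k, ∀ w ∈ Z.lS.F q,
        (fun w : (ℂ × ℂ) × (ℂ × ℂ) × ℂ => (w.1, w.2.1, w.2.2 + 2 * Real.pi * Complex.I * n)) w ∈
          Z.lS.F q := by
      intro q _ w hw
      refine ⟨hw.1, hw.2.1, hw.2.2.1, ?_⟩
      show Complex.exp (w.2.2 + 2 * Real.pi * Complex.I * n) = w.1.2 - w.2.1.2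
      rw [← hw.2.2.2, Complex.exp_eq_exp_iff_exists_int]
      exact ⟨n, by ring⟩
    have h1 := uf_map U Z.lS Z.lS Y hY Y hY _ hp hF (Z.lp a b l hs h) u v hu hv
    have h2 : (⟨(fun w : (ℂ × ℂ) × (ℂ × ℂ) × ℂ =>
        (w.1, w.2.1, w.2.2 + 2 * Real.pi * Complex.I * n)) (Z.lp a b l hs h),
        hF _ (base_mem k) _ (Z.lp a b l hs h).2⟩ : Z.lS.F (base k)) =
        Z.lp a b (l + 2 * Real.pi * Complex.I * n) hs h' := rfl
    rw [h2] at h1
    rw [← h1]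
  -- the period of the logarithms
  have hper : ∀ (w : List ℕ) (_ : ∀ i ∈ w, i + 1 < k) (a b : Z.B) (l : ℂ) (hs : Z.Same a b)
      (h : Complex.exp l = Z.pt a - Z.pt b)
      (h' : Complex.exp (l + 2 * Real.pi * Complex.I * (wn (Z.ww w) a b : ℤ)) = Z.pt a - Z.pt b),
      ((w.map Z.lS.s).prod ^ per Z.B) (Z.lp a b l hs h) =
        Z.lp a b (l + 2 * Real.pi * Complex.I * (wn (Z.ww w) a b : ℤ)) hs h' := by
    intro w hw a b l hs h h'
    apply Subtype.ext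
    rw [ww_pow_lp Z w hw, pow_p, per_pow, (ww_good Z w hw).pow_d he]
    rfl
  let L : Z.B → Z.B → ℂ → ℂ → ℂ := fun a b u v =>
    if h : Z.Same a b ∧ a ≠ b then
      (Y (Z.lp a b (Complex.log (Z.pt a - Z.pt b)) h.1 (exp_log_pt Z h.1 h.2)) u v).2.2 else 0
  have hL : ∀ a b (hs : Z.Same a b) (h : a ≠ b) u v, L a b u v =
      (Y (Z.lp a b (Complex.log (Z.pt a - Z.pt b)) hs (exp_log_pt Z hs h)) u v).2.2 :=
    fun a b hs h u v => dif_pos ⟨hs, h⟩
  have hprod : ∀ u ∈ Hl, ∀ v ∈ Hl, (u, v) ∈ Hl ×ˢ Hl := fun u hu v hv => ⟨hu, hv⟩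
  have hUd := U.diff
  refine ⟨fun a u v => (X a u v).2, L, ?_⟩
  constructor
  · exact same_equiv Z
  · exact hgi.rel
  · exact hgj.rel
  · -- holu
    intro a v hv
    refine cf_hol Z Hl isOpen_hl (fun u => U.c u v) ?_ (fun u hu => U.conf u hu v hv)
      (fun u => X a u v) ?_ (fun u hu => hX.mem a u hu v hv)
    · have h2 : DifferentiableOn ℂ (fun u : ℂ => (u, v)) Hl := by fun_prop
      exact hUd.comp h2 fun u hu => hprod u hu v hv
    · have h2 : ContinuousOn (fun u : ℂ => (u, v)) Hl := by fun_prop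
      exact (hX.cont a).comp h2 fun u hu => hprod u hu v hv
  · -- holv
    intro a u hu
    refine cf_hol Z Hl isOpen_hl (fun v => U.c u v) ?_ (fun v hv => U.conf u hu v hv)
      (fun v => X a u v) ?_ (fun v hv => hX.mem a u hu v hv)
    · have h2 : DifferentiableOn ℂ (fun v : ℂ => (u, v)) Hl := by fun_prop
      exact hUd.comp h2 fun v hv => hprod u hu v hv
    · have h2 : ContinuousOn (fun v : ℂ => (u, v)) Hl := by fun_prop
      exact (hX.cont a).comp h2 fun v hv => hprod u hu v hv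
  · -- hold
    intro a p q hp hq
    refine cf_hol Z Hl isOpen_hl (fun z => U.c (p * z) (q * z)) ?_
      (fun z hz => U.conf _ (mul_hl z hz p hp) _ (mul_hl z hz q hq))
      (fun z => X a (p * z) (q * z)) ?_
      (fun z hz => hX.mem a _ (mul_hl z hz p hp) _ (mul_hl z hz q hq))
    · have h2 : DifferentiableOn ℂ (fun z : ℂ => ((p : ℂ) * z, (q : ℂ) * z)) Hl := by fun_prop
      exact hUd.comp h2 fun z hz => hprod _ (mul_hl z hz p hp) _ (mul_hl z hz q hq)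
    · have h2 : ContinuousOn (fun z : ℂ => ((p : ℂ) * z, (q : ℂ) * z)) Hl := by fun_prop
      exact (hX.cont a).comp h2 fun z hz => hprod _ (mul_hl z hz p hp) _ (mul_hl z hz q hq)
  · -- cont
    intro a b hs hab
    have h1 := hY.cont (Z.lp a b (Complex.log (Z.pt a - Z.pt b)) hs (exp_log_pt Z hs hab))
    have h2 : ContinuousOn (fun z : ℂ × ℂ =>
        (Y (Z.lp a b (Complex.log (Z.pt a - Z.pt b)) hs (exp_log_pt Z hs hab)) z.1 z.2).2.2)
        (Hl ×ˢ Hl) :=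
      (continuous_snd.comp continuous_snd).comp_continuousOn h1
    exact h2.congr fun z _ => hL a b hs hab z.1 z.2
  · -- exp
    intro a b hs hab u hu v hv
    rw [hL a b hs hab]
    have h1 := (hY.mem (Z.lp a b (Complex.log (Z.pt a - Z.pt b)) hs (exp_log_pt Z hs hab)) u hu v hv).2.2.2
    rw [h1, hfst _ u hu v hv, hsnd _ u hu v hv]
    rfl
  · -- tru
    intro a u hu v hv
    show (X a (u + Real.pi * Complex.I) v).2 = (X ((Z.ww U.wu).p a) u v).2
    rw [U.tru Z.S X hX a u hu v hv, ww_p]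
  · -- trv
    intro a u hu v hv
    show (X a u (v + Real.pi * Complex.I)).2 = (X ((Z.ww U.wv).p a) u v).2
    rw [U.trv Z.S X hX a u hu v hv, ww_p]
  · -- pM
    exact per_pos
  · -- pu
    intro a
    rw [per_pow]
    rfl
  · -- pv
    intro a
    rw [per_pow]
    rfl
  · -- Ltru
    intro a b hs hab u hu v hv
    rw [hL a b hs hab, hL a b hs hab, uf_tru U Z.lS Y hY _ _ u v hu hv,
      hper U.wu U.ltu a b _ hs _ (hexp a b _ _ (exp_log_pt Z hs hab)),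
      hshift a b _ hs _ _ _ u v hu hv]
  · -- Ltrv
    intro a b hs hab u hu v hv
    rw [hL a b hs hab, hL a b hs hab, uf_trv U Z.lS Y hY _ _ u v hu hv,
      hper U.wv U.ltv a b _ hs _ (hexp a b _ _ (exp_log_pt Z hs hab)),
      hshift a b _ hs _ _ _ u v hu hv]
  · -- inv00
    intro a b _ _
    exact wn_comm (Z.ww U.wu) (Z.ww U.wu) rfl a b
  · -- inv02
    intro a b _ _
    exact wn_comm (Z.ww U.wv) (Z.ww U.wu) hc.symm a b
  · -- inv20
    intro a b _ _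
    exact wn_comm (Z.ww U.wu) (Z.ww U.wv) hc a b
  · -- inv22
    intro a b _ _
    exact wn_comm (Z.ww U.wv) (Z.ww U.wv) rfl a b
  · -- sym0
    intro a b _ _
    exact hgi.wn_sym he a b
  · -- sym2
    intro a b _ _
    exact hgj.wn_sym he a b

end Pool.Agent.Helper83.LN6
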