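import Pool.Agent.Helper83.LN6.CLog
import Pool.Agent.Helper96.LN3.LinkA3
import Pool.Agent.Helper2.LN.RotAB

/-!
# LN6-C5 (MP_730da0_ag): (All), the cocycle of the rotation `A` of a coloured system

Port of Helper96/LN3/RotCoc.lean (proof of `rot_coc` there).  Differences: `lgSys S` is replaced by `Z.lS` (points `Z.lp a b l hs h`, action `s_lp`), `rigid` by `Z.rig` (the same `y` for all colours:
for a section `X : ℂ → ℂ × ℂ` over `s ↦ e^s q` the second component is `y s * (X 0).2`); only good pairs (`Z.Gp a b`: same colour, different) are considered.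
-/

namespace Pool.Agent.Helper83.LN6

open Pool.Agent.Helper2.LN Pool.Agent.Helper96.LN3

variable {k : ℕ}

private theorem rc_step {W : Type} [TopologicalSpace W] (S : Sys k W) (H : ℝ × ℝ → (Fin k → ℂ))
    (hH : Continuous H) (hC : ∀ x, H x ∈ Conf k)
    (ρ : Equiv.Perm (Fin k)) (hper : ∀ u t, H (u, t + 1) = H (u, t) ∘ ρ) (t₀ : ℝ)
    (φ : S.F (base k))
    (hg : ∀ s : C(ℝ, W), (∀ t, s t ∈ S.F (H (1, t))) → s t₀ = S.val φ (H (1, t₀)) →
      s (t₀ + 1) = S.val (S.A φ) (H (1, t₀)))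
    (L L' : C(ℝ × ℝ, W)) (hL : ∀ a, L a ∈ S.F (H a)) (hL' : ∀ a, L' a ∈ S.F (H a))
    (h0 : L (1, t₀) = S.val φ (H (1, t₀))) (h0' : L' (1, t₀) = S.val (S.A φ) (H (1, t₀)))
    (u t : ℝ) : L (u, t + 1) = L' (u, t) := by
  let sh : C(ℝ × ℝ, ℝ × ℝ) := ⟨fun x => (x.1, x.2 + 1), by fun_prop⟩
  let ln : C(ℝ, ℝ × ℝ) := ⟨fun t => (1, t), by fun_prop⟩
  have hM : ∀ a, (L.comp sh) a ∈ S.F (H a) := by
    rintro ⟨u, t⟩
    have h1 := hL (u, t + 1)
    have h2 : S.F (H (u, t + 1)) = S.F (H (u, t)) := by rw [hper, S.perm]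
    rw [← h2]
    exact h1
  have h1 : L.comp sh = L' := by
    refine S.uniq (ℝ × ℝ) ⟨H, hH⟩ hC _ _ hM hL' ⟨(1, t₀), ?_⟩
    rw [h0']
    exact hg (L.comp ln) (fun t => hL (1, t)) h0
  exact congrArg (fun f : C(ℝ × ℝ, W) => f (u, t)) h1

private theorem rc_p (Z : CSys k) (l : List ℕ) :
    ((l.map Z.wg).prod).p = (l.map Z.S.s).prod := by
  induction l with
  | nil => rfl
  | cons i l ih =>
    rw [List.map_cons, List.prod_cons, List.map_cons, List.prod_cons, WG.mul_p, ih]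
    rfl

private theorem rc_list (Z : CSys k) (a b : Z.B) (x : ℂ) (hs : Z.Same a b)
    (h : Complex.exp x = Z.pt a - Z.pt b) (l : List ℕ) (hl : ∀ i ∈ l, i + 1 < k) :
    ∃ (hs' : Z.Same ((l.map Z.S.s).prod a) ((l.map Z.S.s).prod b))
      (h' : Complex.exp (x + ((l.map Z.wg).prod).d a b) =
        Z.pt ((l.map Z.S.s).prod a) - Z.pt ((l.map Z.S.s).prod b)),
      (l.map Z.lS.s).prod (Z.lp a b x hs h) =
        Z.lp ((l.map Z.S.s).prod a) ((l.map Z.S.s).prod b) (x + ((l.map Z.wg).prod).d a b) hs' h' := by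
  induction l with
  | nil =>
    have e : x + (((([] : List ℕ).map Z.wg).prod).d a b) = x := add_zero x
    refine ⟨hs, e.symm ▸ h, Subtype.ext (Prod.ext rfl (Prod.ext rfl e.symm))⟩
  | cons i l ih =>
    obtain ⟨hs1, h1, h2⟩ := ih (fun j hj => hl j (List.mem_cons_of_mem _ hj))
    obtain ⟨hs3, h3, h4⟩ := s_lp Z i (hl i List.mem_cons_self) _ _ _ hs1 h1
    have e : x + ((((i :: l).map Z.wg).prod).d a b) = x + ((l.map Z.wg).prod).d a b +
        (Z.wg i).d ((l.map Z.S.s).prod a) ((l.map Z.S.s).prod b) := by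
      rw [List.map_cons, List.prod_cons, WG.mul_d, rc_p]
      ring
    have e2 : ((((i :: l).map Z.lS.s).prod) (Z.lp a b x hs h)) =
        Z.lp (Z.S.s i ((l.map Z.S.s).prod a)) (Z.S.s i ((l.map Z.S.s).prod b)) _ hs3 h3 := by
      rw [List.map_cons, List.prod_cons, Equiv.Perm.mul_apply, h2, h4]
    refine ⟨hs3, ?_, ?_⟩
    · rw [e]
      exact h3
    · rw [e2]
      exact Subtype.ext (Prod.ext rfl (Prod.ext rfl e.symm))

theorem all_coc (hk : 2 ≤ k) (Z : CSys k) :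
    ∃ (κ : ℂ) (η : Z.B → Z.B → ℂ), ∀ a b, Z.Gp a b →
      (((List.range (k - 1)).map Z.wg).prod).d a b = κ + η a b -
        η ((((List.range (k - 1)).map Z.wg).prod).p a) ((((List.range (k - 1)).map Z.wg).prod).p b) := by
  classical
  obtain ⟨H, ρ, t₀, hH, hC, hrot, hper, hGen, hlink⟩ := linkA3 k hk
  -- sections of `Z.S` over the plane
  have hlift := fun w : Z.B => Z.S.lift (ℝ × ℝ) ⟨H, hH⟩ hC (1, t₀) (Z.S.val w (H (1, t₀)))
    (Z.S.val_mem w _ hGen)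
  choose L hL0 hLF using hlift
  -- sections of `Z.lS` over the plane
  have hliftM := fun w : Z.lS.F (base k) =>
    Z.lS.lift (ℝ × ℝ) ⟨H, hH⟩ hC (1, t₀) (Z.lS.val w (H (1, t₀)))
      (Z.lS.val_mem w _ hGen)
  choose M hM0 hMF using hliftM
  -- the components
  have hM1 : ∀ (a b : Z.B) (l : ℂ) (hs : Z.Same a b) (h : Complex.exp l = Z.pt a - Z.pt b)
      (x : ℝ × ℝ), (M (Z.lp a b l hs h) x).1 = L a x := by
    intro a b l hs h x
    let g : C(ℝ × ℝ, ℂ × ℂ) := ⟨fun x => (M (Z.lp a b l hs h) x).1,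
      continuous_fst.comp (M (Z.lp a b l hs h)).continuous⟩
    have h1 : g = L a := by
      refine Z.S.uniq (ℝ × ℝ) ⟨H, hH⟩ hC _ _ (fun x => (hMF (Z.lp a b l hs h) x).1) (hLF a)
        ⟨(1, t₀), ?_⟩
      show (M (Z.lp a b l hs h) (1, t₀)).1 = L a (1, t₀)
      rw [hM0, hL0]
      exact val_map Z.lS Z.S Prod.fst continuous_fst (fun q _ w hw => hw.1)
        (Z.lp a b l hs h) _ hGen
    exact congrArg (fun f : C(ℝ × ℝ, ℂ × ℂ) => f x) h1
  have hM2 : ∀ (a b : Z.B) (l : ℂ) (hs : Z.Same a b) (h : Complex.exp l = Z.pt a - Z.pt b)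
      (x : ℝ × ℝ), (M (Z.lp a b l hs h) x).2.1 = L b x := by
    intro a b l hs h x
    let g : C(ℝ × ℝ, ℂ × ℂ) := ⟨fun x => (M (Z.lp a b l hs h) x).2.1,
      continuous_fst.comp (continuous_snd.comp (M (Z.lp a b l hs h)).continuous)⟩
    have h1 : g = L b := by
      refine Z.S.uniq (ℝ × ℝ) ⟨H, hH⟩ hC _ _ (fun x => (hMF (Z.lp a b l hs h) x).2.1) (hLF b)
        ⟨(1, t₀), ?_⟩
      show (M (Z.lp a b l hs h) (1, t₀)).2.1 = L b (1, t₀)
      rw [hM0, hL0]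
      exact val_map Z.lS Z.S (fun w : (ℂ × ℂ) × (ℂ × ℂ) × ℂ => w.2.1)
        (continuous_fst.comp continuous_snd) (fun q _ w hw => hw.2.1)
        (Z.lp a b l hs h) _ hGen
    exact congrArg (fun f : C(ℝ × ℝ, ℂ × ℂ) => f x) h1
  -- the shift
  have hM3 : ∀ (a b : Z.B) (l l' : ℂ) (hs : Z.Same a b) (h : Complex.exp l = Z.pt a - Z.pt b)
      (h' : Complex.exp l' = Z.pt a - Z.pt b) (x : ℝ × ℝ),
      (M (Z.lp a b l' hs h') x).2.2 = (M (Z.lp a b l hs h) x).2.2 + (l' - l) := by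
    intro a b l l' hs h h' x
    obtain ⟨n, hn⟩ := Complex.exp_eq_exp_iff_exists_int.1 (h'.trans h.symm)
    have hsh : ∀ (q : Fin k → ℂ), q ∈ Conf k → ∀ w ∈ Z.lS.F q,
        ((fun w : (ℂ × ℂ) × (ℂ × ℂ) × ℂ =>
          (w.1, w.2.1, w.2.2 + n * (2 * Real.pi * Complex.I))) w) ∈ Z.lS.F q :=
      fun q _ w hw => ⟨hw.1, hw.2.1, hw.2.2.1, by
        show Complex.exp (w.2.2 + n * (2 * Real.pi * Complex.I)) = w.1.2 - w.2.1.2
        rw [Complex.exp_add, Complex.exp_int_mul_two_pi_mul_I, mul_one]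
        exact hw.2.2.2⟩
    let g : C(ℝ × ℝ, (ℂ × ℂ) × (ℂ × ℂ) × ℂ) :=
      ⟨fun x => ((M (Z.lp a b l hs h) x).1, (M (Z.lp a b l hs h) x).2.1,
        (M (Z.lp a b l hs h) x).2.2 + n * (2 * Real.pi * Complex.I)),
        (show Continuous (fun w : (ℂ × ℂ) × (ℂ × ℂ) × ℂ =>
          (w.1, w.2.1, w.2.2 + n * (2 * Real.pi * Complex.I))) by fun_prop).comp
          (M (Z.lp a b l hs h)).continuous⟩
    have h1 : M (Z.lp a b l' hs h') = g := by
      refine Z.lS.uniq (ℝ × ℝ) ⟨H, hH⟩ hC _ _ (hMF _)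
        (fun x => hsh _ (hC x) _ (hMF (Z.lp a b l hs h) x)) ⟨(1, t₀), ?_⟩
      rw [hM0]
      show _ = (fun w : (ℂ × ℂ) × (ℂ × ℂ) × ℂ =>
        (w.1, w.2.1, w.2.2 + n * (2 * Real.pi * Complex.I))) (M (Z.lp a b l hs h) (1, t₀))
      rw [hM0]
      have h2 := val_map Z.lS Z.lS
        (fun w : (ℂ × ℂ) × (ℂ × ℂ) × ℂ => (w.1, w.2.1, w.2.2 + n * (2 * Real.pi * Complex.I)))
        (by fun_prop) hsh (Z.lp a b l hs h) _ hGen
      refine Eq.trans ?_ h2.symm
      congr 1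
      refine Subtype.ext (Prod.ext rfl (Prod.ext rfl ?_))
      show l' = l + n * (2 * Real.pi * Complex.I)
      exact hn
    rw [h1]
    show (M (Z.lp a b l hs h) x).2.2 + n * (2 * Real.pi * Complex.I) = _
    rw [hn]
    ring
  -- rigidity
  obtain ⟨y, hyc, hy0, hy1, hyX⟩ := Z.rig (rotA k 0) (rotA_mem k 0)
  have hconf : ∀ s : ℂ, (fun i => Complex.exp s * rotA k 0 i) ∈ Conf k := by
    intro s i j hij
    exact rotA_mem k 0 (mul_left_cancel₀ (Complex.exp_ne_zero s) hij)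
  have hLy : ∀ (a : Z.B) (t : ℝ),
      (L a (0, t)).2 = y (2 * Real.pi * Complex.I / k * t) * (L a (0, 0)).2 := by
    intro a t
    have hF : ∀ t : ℝ, L a (0, t) ∈
        Z.S.F (fun i => Complex.exp (2 * Real.pi * Complex.I / k * t) * rotA k 0 i) := by
      intro t
      have h1 := hLF a (0, t)
      have h2 : (⟨H, hH⟩ : C(ℝ × ℝ, Fin k → ℂ)) (0, t) = rotA k t := hrot t
      rw [h2, rotA_eq] at h1
      exact h1
    have h0 : L a (0, 0) ∈ Z.S.F (fun i => Complex.exp 0 * rotA k 0 i) := by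
      have h1 := hF 0
      rwa [Complex.ofReal_zero, mul_zero] at h1
    obtain ⟨X, hX0, hX⟩ := Z.S.lift ℂ
      ⟨fun s i => Complex.exp s * rotA k 0 i, by fun_prop⟩ (fun s => hconf s) 0 (L a (0, 0)) h0
    have h2 := hyX X X.continuous hX
    have hcts : Continuous fun t : ℝ => 2 * Real.pi * Complex.I / k * (t : ℂ) := by fun_prop
    have hcL : Continuous fun t : ℝ => L a (0, t) :=
      (L a).continuous.comp (continuous_const.prodMk continuous_id)
    have h3 := Z.S.uniq ℝ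
      ⟨fun t i => Complex.exp (2 * Real.pi * Complex.I / k * t) * rotA k 0 i, by fun_prop⟩
      (fun t => hconf _)
      ⟨fun t => L a (0, t), hcL⟩
      ⟨fun t => X (2 * Real.pi * Complex.I / k * t), X.continuous.comp hcts⟩ hF (fun t => hX _)
      ⟨0, by
        change L a (0, 0) = X (2 * Real.pi * Complex.I / k * ((0 : ℝ) : ℂ))
        rw [Complex.ofReal_zero, mul_zero, hX0]⟩
    have h4 : L a (0, t) = X (2 * Real.pi * Complex.I / k * t) :=
      congrArg (fun F : C(ℝ, ℂ × ℂ) => F t) h3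
    rw [h4, h2, hX0]
  -- the logarithm of `y`
  let yc : C(ℝ, ℂ) := ⟨fun t => y (2 * Real.pi * Complex.I / k * t), hyc.comp (by fun_prop)⟩
  obtain ⟨Y, hY0, hY⟩ := exp_lift ℝ yc (fun t => hy0 _) 0 0 (by
    show Complex.exp 0 = y (2 * Real.pi * Complex.I / k * ((0 : ℝ) : ℂ))
    rw [Complex.ofReal_zero, mul_zero, hy1, Complex.exp_zero])
  have hMY : ∀ (a b : Z.B) (l : ℂ) (hs : Z.Same a b) (h : Complex.exp l = Z.pt a - Z.pt b) (t : ℝ),
      (M (Z.lp a b l hs h) (0, t)).2.2 = (M (Z.lp a b l hs h) (0, 0)).2.2 + Y t := by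
    intro a b l hs h t
    have hc3 : Continuous fun t : ℝ => (M (Z.lp a b l hs h) (0, t)).2.2 :=
      continuous_snd.comp (continuous_snd.comp ((M (Z.lp a b l hs h)).continuous.comp
        (continuous_const.prodMk continuous_id)))
    have hcL : ∀ a, Continuous fun t : ℝ => (L a (0, t)).2 := fun a =>
      continuous_snd.comp ((L a).continuous.comp (continuous_const.prodMk continuous_id))
    have hexp : ∀ x : ℝ × ℝ, Complex.exp (M (Z.lp a b l hs h) x).2.2 = (L a x).2 - (L b x).2 := by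
      intro x
      have h1 : Complex.exp (M (Z.lp a b l hs h) x).2.2 =
        (M (Z.lp a b l hs h) x).1.2 - (M (Z.lp a b l hs h) x).2.1.2 :=
          (hMF (Z.lp a b l hs h) x).2.2.2
      rw [h1, hM1, hM2]
    have h1 := exp_uniq ℝ ⟨fun t => (L a (0, t)).2 - (L b (0, t)).2, (hcL a).sub (hcL b)⟩
      ⟨fun t => (M (Z.lp a b l hs h) (0, t)).2.2, hc3⟩
      ⟨fun t => (M (Z.lp a b l hs h) (0, 0)).2.2 + Y t, continuous_const.add Y.continuous⟩
      (fun t => hexp (0, t)) (fun t => by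
        show Complex.exp ((M (Z.lp a b l hs h) (0, 0)).2.2 + Y t) = (L a (0, t)).2 - (L b (0, t)).2
        have h2 : Complex.exp (Y t) = y (2 * Real.pi * Complex.I / k * t) := hY t
        rw [Complex.exp_add, hexp, h2, hLy a t, hLy b t]
        ring)
      ⟨0, by
        show (M (Z.lp a b l hs h) (0, 0)).2.2 = (M (Z.lp a b l hs h) (0, 0)).2.2 + Y 0
        rw [hY0, add_zero]⟩
    exact congrArg (fun F : C(ℝ, ℂ) => F t) h1
  refine ⟨Y 1, fun a b => if h : Z.Gp a b then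
    (M (Z.lp a b (Complex.log (Z.pt a - Z.pt b)) h.1 (exp_log_pt Z h.1 h.2)) (0, 0)).2.2 -
      Complex.log (Z.pt a - Z.pt b) else 0, fun a b hab => ?_⟩
  have hη : ∀ (a b : Z.B) (l : ℂ) (hs : Z.Same a b) (h : Complex.exp l = Z.pt a - Z.pt b),
      (if h : Z.Gp a b then
        (M (Z.lp a b (Complex.log (Z.pt a - Z.pt b)) h.1 (exp_log_pt Z h.1 h.2)) (0, 0)).2.2 -
          Complex.log (Z.pt a - Z.pt b) else 0) = (M (Z.lp a b l hs h) (0, 0)).2.2 - l := by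
    intro a b l hs h
    have hne : Z.Gp a b := ⟨hs, ne_of_exp Z h⟩
    rw [dif_pos hne, hM3 a b l _ hs h (exp_log_pt Z hne.1 hne.2) (0, 0)]
    ring
  have h0 := exp_log_pt Z hab.1 hab.2
  obtain ⟨hs1, h1, h2⟩ := rc_list Z a b _ hab.1 h0 (List.range (k - 1)) (fun i hi => by
    have := List.mem_range.1 hi
    omega)
  have h3 : Z.lS.A (Z.lp a b _ hab.1 h0) = Z.lp _ _ _ hs1 h1 := h2
  have h4 := rc_step Z.lS H hH hC ρ hper t₀ (Z.lp a b _ hab.1 h0)
    (hlink _ Z.lS (Z.lp a b _ hab.1 h0)) (M _) (M (Z.lS.A (Z.lp a b _ hab.1 h0)))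
    (hMF _) (hMF _) (hM0 _) (hM0 _) 0 0
  rw [h3, zero_add] at h4
  have h5 := congrArg (fun w : (ℂ × ℂ) × (ℂ × ℂ) × ℂ => w.2.2) h4
  have h6 : (M (Z.lp a b _ hab.1 h0) (0, 1)).2.2 = (M (Z.lp _ _ _ hs1 h1) (0, 0)).2.2 := h5
  rw [hMY a b _ hab.1 h0 1] at h6
  rw [rc_p]
  beta_reduce
  rw [hη a b _ hab.1 h0, hη _ _ _ hs1 h1]
  linear_combination -h6

end Pool.Agent.Helper83.LN6
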