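import Pool.Agent.Helper83.LN6.CDefs
import Pool.Agent.Helper96.LN6.Tr

/-!
# LN6-C6 (MP_730da0_ag): A1 for coloured families

Port of Helper96/LN3/CornA.lean: `Fam` is replaced by `CFam R` and every pair `a ≠ b` by a pair with `R a b`, `a ≠ b` (the relation `R` is an equivalence, `h.rel`); `hM` is the field `h.pM`.
`vertuv`: `vertu`, then the proof of `vertv` with `-(p t) + y i` in place of `-(p t)` (same real part).
-/

namespace Pool.Agent.Helper83.LN6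

open Pool.Agent.Helper96.LN3

variable {F : Type} {R : F → F → Prop} {σ₀ σ₂ : Equiv.Perm F} {n₀ n₂ : F → F → ℤ} {M : ℕ}
  {W : F → ℂ → ℂ → ℂ} {L : F → F → ℂ → ℂ → ℂ}

/-- The family without the invariance fields, in the form of Helper96/LN6. -/
theorem CFam.toR (h : CFam R σ₀ σ₂ n₀ n₂ M W L) :
    Pool.Agent.Helper96.LN6.RFam (fun a b => R a b ∧ a ≠ b) σ₀ σ₂ n₀ n₂ M W L where
  holu := h.holu
  holv := h.holv
  hold := h.hold
  cont := fun a b hab => h.cont a b hab.1 hab.2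
  exp := fun a b hab => h.exp a b hab.1 hab.2
  tru := h.tru
  trv := h.trv
  pu := h.pu
  pv := h.pv
  Ltru := fun a b hab => h.Ltru a b hab.1 hab.2
  Ltrv := fun a b hab => h.Ltrv a b hab.1 hab.2

theorem CFam.swap (h : CFam R σ₀ σ₂ n₀ n₂ M W L) :
    CFam R σ₂ σ₀ n₂ n₀ M (fun a u v => W a v u) (fun a b u v => L a b v u) where
  rel := h.rel
  rel₀ := h.rel₂
  rel₂ := h.rel₀
  holu := fun a v hv => h.holv a v hv
  holv := fun a u hu => h.holu a u hu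
  hold := fun a p q hp hq => h.hold a q p hq hp
  cont := fun a b hR hab => ContinuousOn.comp (h.cont a b hR hab) (f := fun z : ℂ × ℂ => (z.2, z.1))
    (by fun_prop) fun z hz => ⟨hz.2, hz.1⟩
  exp := fun a b hR hab u hu v hv => h.exp a b hR hab v hv u hu
  tru := fun a u hu v hv => h.trv a v hv u hu
  trv := fun a u hu v hv => h.tru a v hv u hu
  pM := h.pM
  pu := h.pv
  pv := h.pu
  Ltru := fun a b hR hab u hu v hv => h.Ltrv a b hR hab v hv u hu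
  Ltrv := fun a b hR hab u hu v hv => h.Ltru a b hR hab v hv u hu
  inv₀₀ := h.inv₂₂
  inv₀₂ := h.inv₂₀
  inv₂₀ := h.inv₀₂
  inv₂₂ := h.inv₀₀
  sym₀ := h.sym₂
  sym₂ := h.sym₀

theorem CFam.ne (h : CFam R σ₀ σ₂ n₀ n₂ M W L) {a b : F} (hR : R a b) (hab : a ≠ b) {u v : ℂ}
    (hu : u ∈ Hl) (hv : v ∈ Hl) : W a u v - W b u v ≠ 0 := by
  rw [← h.exp a b hR hab u hu v hv]
  exact Complex.exp_ne_zero _

theorem CFam.exp_l (h : CFam R σ₀ σ₂ n₀ n₂ M W L) {a b c : F} (hRb : R a b) (hRc : R a c)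
    (hab : a ≠ b) (hac : a ≠ c) {u v : ℂ} (hu : u ∈ Hl) (hv : v ∈ Hl) :
    Complex.exp (L a b u v - L a c u v) = (W a u v - W b u v) / (W a u v - W c u v) := by
  rw [Complex.exp_sub, h.exp a b hRb hab u hu v hv, h.exp a c hRc hac u hu v hv]

theorem CFam.logOn_u (h : CFam R σ₀ σ₂ n₀ n₂ M W L) (a b c : F) (hRb : R a b) (hRc : R a c)
    (hab : a ≠ b) (hac : a ≠ c) (hbc : b ≠ c) (v : ℂ) (hv : v ∈ Hl) :
    LogOn (fun u => (W a u v - W b u v) / (W a u v - W c u v)) (fun u => L a b u v - L a c u v) :=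
  h.toR.logOn_u a b c ⟨hRb, hab⟩ ⟨hRc, hac⟩ ⟨h.rel.trans (h.rel.symm hRb) hRc, hbc⟩ v hv

theorem CFam.logOn_v (h : CFam R σ₀ σ₂ n₀ n₂ M W L) (a b c : F) (hRb : R a b) (hRc : R a c)
    (hab : a ≠ b) (hac : a ≠ c) (hbc : b ≠ c) (u : ℂ) (hu : u ∈ Hl) :
    LogOn (fun v => (W a u v - W b u v) / (W a u v - W c u v)) (fun v => L a b u v - L a c u v) :=
  h.toR.logOn_v a b c ⟨hRb, hab⟩ ⟨hRc, hac⟩ ⟨h.rel.trans (h.rel.symm hRb) hRc, hbc⟩ u hu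

theorem CFam.diag (h : CFam R σ₀ σ₂ n₀ n₂ M W L) (a b c : F) (hRb : R a b) (hRc : R a c)
    (hab : a ≠ b) (hac : a ≠ c) (hbc : b ≠ c) (p q : ℕ) (hp : 0 < p) (hq : 0 < q) :
    ∃ r : ℂ, Filter.Tendsto (fun t : ℝ => L a b (-(p * t)) (-(q * t)) - L a c (-(p * t)) (-(q * t)) +
      2 * (p * (n₀ a b - n₀ a c) + q * (n₂ a b - n₂ a c)) * t / M) Filter.atTop (nhds r) :=
  h.toR.diag h.pM a b c ⟨hRb, hab⟩ ⟨hRc, hac⟩ ⟨h.rel.trans (h.rel.symm hRb) hRc, hbc⟩ p q hp hq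

theorem CFam.vertuv (h : CFam R σ₀ σ₂ n₀ n₂ M W L) (a b c : F) (hRb : R a b) (hRc : R a c)
    (hab : a ≠ b) (hac : a ≠ c) (hbc : b ≠ c) (p q : ℕ) (hp : 0 < p) (hq : 0 < q) (r : ℂ)
    (hr : Filter.Tendsto (fun t : ℝ => L a b (-(p * t)) (-(q * t)) - L a c (-(p * t)) (-(q * t)))
      Filter.atTop (nhds r)) (y z : ℝ) :
    Filter.Tendsto (fun t : ℝ => L a b (-(p * t) + y * Complex.I) (-(q * t) + z * Complex.I) -
      L a c (-(p * t) + y * Complex.I) (-(q * t) + z * Complex.I)) Filter.atTop (nhds r) := by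
  have hbcR : R b c := h.rel.trans (h.rel.symm hRb) hRc
  have hu1 := h.toR.vertu a b c ⟨hRb, hab⟩ ⟨hRc, hac⟩ ⟨hbcR, hbc⟩ p q hp hq r hr y
  obtain ⟨C, -, hC⟩ := vert
  refine Pool.Agent.Helper96.LN6.tendsto_of_vert (C := C) (y := z) hq hu1 fun t ht => ?_
  exact hC _ _ (h.logOn_v a b c hRb hRc hab hac hbc _
    (Pool.Agent.Helper96.LN6.Hl_add (Pool.Agent.Helper96.LN6.Hl_neg hp ht) y)) _
    (Pool.Agent.Helper96.LN6.Hl_neg hq ht) z

theorem CFam.opp (h : CFam R σ₀ σ₂ n₀ n₂ M W L) (a b c : F) (hRb : R a b) (hRc : R a c)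
    (hab : a ≠ b) (hac : a ≠ c) (hbc : b ≠ c) :
    0 ≤ (n₀ a b - n₀ a c) * (n₂ a b - n₂ a c) :=
  h.toR.opp h.pM a b c ⟨hRb, hab⟩ ⟨hRc, hac⟩ ⟨h.rel.trans (h.rel.symm hRb) hRc, hbc⟩

end Pool.Agent.Helper83.LN6
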