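import Pool.Agent.Helper96.LN3.Map
import Pool.Agent.Helper96.LN3.Defs

/-!
# LN6-C (MP_730da0_ag): coloured systems, definitions (do not change)

A coloured system is a system of fibres in `ℂ × ℂ` (colour, position), such that the colours have unique lifting.
Q1: one colour.  Q2: the colour is a root of order `k (k-1)` of the discriminant.
Only pairs of different points of the same colour (good pairs) are compared.
-/

namespace Pool.Agent.Helper83.LN6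

open Pool.Agent.Helper2.LN Pool.Agent.Helper96.LN3

/-- A coloured system. -/
structure CSys (k : ℕ) where
  /-- the points of the fibre are pairs (colour, position) -/
  S : Sys k (ℂ × ℂ)
  /-- the system of the colours -/
  C : Sys k ℂ
  col : ∀ q ∈ Conf k, ∀ w ∈ S.F q, w.1 ∈ C.F q
  fin : Finite (S.F (base k))
  hol : ∀ D : Set (Fin k → ℂ), IsOpen D → D ⊆ Conf k → ∀ σ : (Fin k → ℂ) → ℂ × ℂ, ContinuousOn σ D →
    (∀ q ∈ D, σ q ∈ S.F q) → DifferentiableOn ℂ (fun q => (σ q).2) D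
  rig : ∀ q ∈ Conf k, ∃ y : ℂ → ℂ, Continuous y ∧ (∀ s, y s ≠ 0) ∧ y 0 = 1 ∧
    ∀ X : ℂ → ℂ × ℂ, Continuous X → (∀ s, X s ∈ S.F (fun i => Complex.exp s * q i)) →
      ∀ s, (X s).2 = y s * (X 0).2
  eqc : ∀ i, i + 1 < k → C.s i = C.s 0
  blk : ∀ x y : C.F (base k), ∃ j : ℕ, (C.s 0 ^ j) x = y

variable {k : ℕ}

/-- The fibre over the base configuration. -/
abbrev CSys.B (Z : CSys k) : Type := Z.S.F (base k)

/-- `a` and `b` have the same colour. -/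
def CSys.Same (Z : CSys k) (a b : Z.B) : Prop := (a : ℂ × ℂ).1 = (b : ℂ × ℂ).1

/-- The position of a point. -/
def CSys.pt (Z : CSys k) (a : Z.B) : ℂ := (a : ℂ × ℂ).2

/-- The fibre of the system of the logarithms of differences of points of the same colour. -/
def CSys.lF (Z : CSys k) (q : Fin k → ℂ) : Set ((ℂ × ℂ) × (ℂ × ℂ) × ℂ) :=
  {x | x.1 ∈ Z.S.F q ∧ x.2.1 ∈ Z.S.F q ∧ x.1.1 = x.2.1.1 ∧ Complex.exp x.2.2 = x.1.2 - x.2.1.2}

/-- Two different points of the same colour. -/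
def CSys.Gp (Z : CSys k) (a b : Z.B) : Prop := Z.Same a b ∧ a ≠ b

/-- Cocycles that come from logarithms of `e a - e b`, for pairs with `R a b`. -/
structure CGood {F : Type} (R : F → F → Prop) (e : F → ℂ) (g : WG F) : Prop where
  rel : ∀ a b, R (g.p a) (g.p b) ↔ R a b
  exp : ∀ a b, R a b → a ≠ b → Complex.exp (g.d a b) = (e (g.p a) - e (g.p b)) / (e a - e b)
  sym : ∀ a b, g.d a b = g.d b a
  zero : ∀ a b, ¬ (R a b ∧ a ≠ b) → g.d a b = 0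

/-- The sections of `S` over the two parameter family `c` of configurations. -/
structure IsUF {W : Type} [TopologicalSpace W] (c : ℂ → ℂ → (Fin k → ℂ)) (S : Sys k W)
    (X : S.F (base k) → ℂ → ℂ → W) : Prop where
  cont : ∀ φ, ContinuousOn (fun z : ℂ × ℂ => X φ z.1 z.2) (Hl ×ˢ Hl)
  mem : ∀ φ, ∀ u ∈ Hl, ∀ v ∈ Hl, X φ u v ∈ S.F (c u v)
  one : ∀ φ, X φ (-1) (-1) = S.val φ (c (-1) (-1))

/-- A two parameter family of configurations on the product of two half planes, with the words of its two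
translations `u ↦ u + πi`, `v ↦ v + πi` (valid for all systems). -/
structure UFam (k : ℕ) where
  c : ℂ → ℂ → (Fin k → ℂ)
  diff : DifferentiableOn ℂ (fun z : ℂ × ℂ => c z.1 z.2) (Hl ×ˢ Hl)
  conf : ∀ u ∈ Hl, ∀ v ∈ Hl, c u v ∈ Conf k
  gen : c (-1) (-1) ∈ Gen k
  wu : List ℕ
  wv : List ℕ
  ltu : ∀ i ∈ wu, i + 1 < k
  ltv : ∀ i ∈ wv, i + 1 < k
  tru : ∀ {W : Type} [TopologicalSpace W] (S : Sys k W) (X : S.F (base k) → ℂ → ℂ → W), IsUF c S X →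
    ∀ φ, ∀ u ∈ Hl, ∀ v ∈ Hl, X φ (u + Real.pi * Complex.I) v = X ((wu.map S.s).prod φ) u v
  trv : ∀ {W : Type} [TopologicalSpace W] (S : Sys k W) (X : S.F (base k) → ℂ → ℂ → W), IsUF c S X →
    ∀ φ, ∀ u ∈ Hl, ∀ v ∈ Hl, X φ u (v + Real.pi * Complex.I) = X ((wv.map S.s).prod φ) u v

/-- The two parameter family of positions and of logarithms of their differences (the relation `R` = same colour). -/
structure CFam {F : Type} (R : F → F → Prop) (σ₀ σ₂ : Equiv.Perm F) (n₀ n₂ : F → F → ℤ) (M : ℕ)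
    (W : F → ℂ → ℂ → ℂ) (L : F → F → ℂ → ℂ → ℂ) : Prop where
  rel : Equivalence R
  rel₀ : ∀ a b, R (σ₀ a) (σ₀ b) ↔ R a b
  rel₂ : ∀ a b, R (σ₂ a) (σ₂ b) ↔ R a b
  holu : ∀ a, ∀ v ∈ Hl, DifferentiableOn ℂ (fun u => W a u v) Hl
  holv : ∀ a, ∀ u ∈ Hl, DifferentiableOn ℂ (fun v => W a u v) Hl
  hold : ∀ a, ∀ p q : ℕ, 0 < p → 0 < q → DifferentiableOn ℂ (fun z : ℂ => W a (p * z) (q * z)) Hl
  cont : ∀ a b, R a b → a ≠ b → ContinuousOn (fun z : ℂ × ℂ => L a b z.1 z.2) (Hl ×ˢ Hl)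
  exp : ∀ a b, R a b → a ≠ b → ∀ u ∈ Hl, ∀ v ∈ Hl, Complex.exp (L a b u v) = W a u v - W b u v
  tru : ∀ a, ∀ u ∈ Hl, ∀ v ∈ Hl, W a (u + Real.pi * Complex.I) v = W (σ₀ a) u v
  trv : ∀ a, ∀ u ∈ Hl, ∀ v ∈ Hl, W a u (v + Real.pi * Complex.I) = W (σ₂ a) u v
  pM : 0 < M
  pu : ∀ a, (σ₀ ^ M) a = a
  pv : ∀ a, (σ₂ ^ M) a = a
  Ltru : ∀ a b, R a b → a ≠ b → ∀ u ∈ Hl, ∀ v ∈ Hl, L a b (u + M * (Real.pi * Complex.I)) v =
    L a b u v + 2 * Real.pi * Complex.I * n₀ a b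
  Ltrv : ∀ a b, R a b → a ≠ b → ∀ u ∈ Hl, ∀ v ∈ Hl, L a b u (v + M * (Real.pi * Complex.I)) =
    L a b u v + 2 * Real.pi * Complex.I * n₂ a b
  inv₀₀ : ∀ a b, R a b → a ≠ b → n₀ (σ₀ a) (σ₀ b) = n₀ a b
  inv₀₂ : ∀ a b, R a b → a ≠ b → n₀ (σ₂ a) (σ₂ b) = n₀ a b
  inv₂₀ : ∀ a b, R a b → a ≠ b → n₂ (σ₀ a) (σ₀ b) = n₂ a b
  inv₂₂ : ∀ a b, R a b → a ≠ b → n₂ (σ₂ a) (σ₂ b) = n₂ a b
  sym₀ : ∀ a b, R a b → a ≠ b → n₀ a b = n₀ b a
  sym₂ : ∀ a b, R a b → a ≠ b → n₂ a b = n₂ b a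

end Pool.Agent.Helper83.LN6
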