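import Pool.Agent.Helper83.LN6.CDefs

/-!
# LN6-C1 (MP_730da0_ag): the system of logarithms of differences of a coloured system, the cocycles

Port of Helper96/LN3/LogSys.lean.
-/

namespace Pool.Agent.Helper83.LN6

open Pool.Agent.Helper2.LN Pool.Agent.Helper96.LN3

variable {k : ℕ} (Z : CSys k)

instance : Finite Z.B := Z.fin

/-! ## colours -/

theorem col_s (i : ℕ) (hi : i + 1 < k) (a : Z.B) :
    ((Z.S.s i a : Z.B) : ℂ × ℂ).1 = Z.C.s i ⟨(a : ℂ × ℂ).1, Z.col _ (base_mem k) _ a.2⟩ :=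
  s_map Z.S Z.C Prod.fst continuous_fst Z.col i hi a

theorem same_refl (a : Z.B) : Z.Same a a := rfl

theorem same_symm {a b : Z.B} (h : Z.Same a b) : Z.Same b a := Eq.symm h

theorem same_trans {a b c : Z.B} (h : Z.Same a b) (h' : Z.Same b c) : Z.Same a c := Eq.trans h h'

theorem same_equiv : Equivalence Z.Same := ⟨same_refl Z, same_symm Z, same_trans Z⟩

theorem same_s (i : ℕ) (hi : i + 1 < k) (a b : Z.B) : Z.Same (Z.S.s i a) (Z.S.s i b) ↔ Z.Same a b := by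
  unfold CSys.Same
  rw [col_s Z i hi a, col_s Z i hi b]
  constructor
  · intro h
    exact congrArg Subtype.val ((Z.C.s i).injective (Subtype.ext h))
  · intro h
    have h1 : (⟨(a : ℂ × ℂ).1, Z.col _ (base_mem k) _ a.2⟩ : Z.C.F (base k)) =
        ⟨(b : ℂ × ℂ).1, Z.col _ (base_mem k) _ b.2⟩ := Subtype.ext h
    rw [h1]

theorem same_ss (i j : ℕ) (hi : i + 1 < k) (hj : j + 1 < k) (a : Z.B) :
    Z.Same (Z.S.s i a) (Z.S.s j a) := by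
  unfold CSys.Same
  rw [col_s Z i hi a, col_s Z j hj a, Z.eqc i hi, Z.eqc j hj]

theorem pt_inj {a b : Z.B} (h : Z.Same a b) (h' : Z.pt a = Z.pt b) : a = b :=
  Subtype.ext (Prod.ext h h')

/-! ## the system of the logarithms -/

theorem cl_perm (q : Fin k → ℂ) (π : Equiv.Perm (Fin k)) : Z.lF (q ∘ π) = Z.lF q := by
  unfold CSys.lF
  rw [Z.S.perm]

private theorem cl_col (A : Type) [TopologicalSpace A] [PreconnectedSpace A]
    (γ : C(A, Fin k → ℂ)) (hγ : ∀ a, γ a ∈ Conf k) (x y : C(A, ℂ × ℂ))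
    (hx : ∀ a, x a ∈ Z.S.F (γ a)) (hy : ∀ a, y a ∈ Z.S.F (γ a)) (h : ∃ a, (x a).1 = (y a).1) (a : A) :
    (x a).1 = (y a).1 := by
  have h1 := Z.C.uniq A γ hγ ⟨fun a => (x a).1, continuous_fst.comp x.continuous⟩
    ⟨fun a => (y a).1, continuous_fst.comp y.continuous⟩
    (fun a => Z.col _ (hγ a) _ (hx a)) (fun a => Z.col _ (hγ a) _ (hy a)) h
  exact DFunLike.congr_fun h1 a

theorem cl_lift (A : Type) [TopologicalSpace A] [SimplyConnectedSpace A]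
    [LocallyPathConnectedSpace A] (γ : C(A, Fin k → ℂ)) (hγ : ∀ a, γ a ∈ Conf k) (a₀ : A)
    (w₀ : (ℂ × ℂ) × (ℂ × ℂ) × ℂ) (hw : w₀ ∈ Z.lF (γ a₀)) :
    ∃ s : C(A, (ℂ × ℂ) × (ℂ × ℂ) × ℂ), s a₀ = w₀ ∧ ∀ a, s a ∈ Z.lF (γ a) := by
  obtain ⟨hw1, hw2, hw3, hw4⟩ := hw
  obtain ⟨x, hx0, hx⟩ := Z.S.lift A γ hγ a₀ w₀.1 hw1
  obtain ⟨y, hy0, hy⟩ := Z.S.lift A γ hγ a₀ w₀.2.1 hw2
  have hcol : ∀ a, (x a).1 = (y a).1 := cl_col Z A γ hγ x y hx hy ⟨a₀, by rw [hx0, hy0]; exact hw3⟩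
  have hne : ∀ a, (x a).2 - (y a).2 ≠ 0 := by
    intro a h
    have h1 : x = y := Z.S.uniq A γ hγ x y hx hy ⟨a, Prod.ext (hcol a) (sub_eq_zero.1 h)⟩
    have h2 : Complex.exp w₀.2.2 = 0 := by
      rw [hw4, ← hx0, ← hy0, h1, sub_self]
    exact Complex.exp_ne_zero _ h2
  let g : C(A, ℂ) := ⟨fun a => (x a).2 - (y a).2,
    (continuous_snd.comp x.continuous).sub (continuous_snd.comp y.continuous)⟩
  obtain ⟨m, hm0, hm⟩ := exp_lift A g hne a₀ w₀.2.2 (by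
    show Complex.exp w₀.2.2 = (x a₀).2 - (y a₀).2
    rw [hx0, hy0]
    exact hw4)
  refine ⟨⟨fun a => (x a, y a, m a), x.continuous.prodMk (y.continuous.prodMk m.continuous)⟩,
    Prod.ext hx0 (Prod.ext hy0 hm0), fun a => ?_⟩
  exact ⟨hx a, hy a, hcol a, hm a⟩

theorem cl_uniq (A : Type) [TopologicalSpace A] [PreconnectedSpace A]
    (γ : C(A, Fin k → ℂ)) (hγ : ∀ a, γ a ∈ Conf k) (s s' : C(A, (ℂ × ℂ) × (ℂ × ℂ) × ℂ))
    (hs : ∀ a, s a ∈ Z.lF (γ a)) (hs' : ∀ a, s' a ∈ Z.lF (γ a)) (h : ∃ a, s a = s' a) : s = s' := by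
  obtain ⟨a₀, ha⟩ := h
  let x : C(A, ℂ × ℂ) := ⟨fun a => (s a).1, continuous_fst.comp s.continuous⟩
  let x' : C(A, ℂ × ℂ) := ⟨fun a => (s' a).1, continuous_fst.comp s'.continuous⟩
  let y : C(A, ℂ × ℂ) := ⟨fun a => (s a).2.1, continuous_fst.comp (continuous_snd.comp s.continuous)⟩
  let y' : C(A, ℂ × ℂ) := ⟨fun a => (s' a).2.1, continuous_fst.comp (continuous_snd.comp s'.continuous)⟩
  let m : C(A, ℂ) := ⟨fun a => (s a).2.2, continuous_snd.comp (continuous_snd.comp s.continuous)⟩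
  let m' : C(A, ℂ) := ⟨fun a => (s' a).2.2, continuous_snd.comp (continuous_snd.comp s'.continuous)⟩
  have hx : x = x' := Z.S.uniq A γ hγ x x' (fun a => (hs a).1) (fun a => (hs' a).1)
    ⟨a₀, congrArg Prod.fst ha⟩
  have hy : y = y' := Z.S.uniq A γ hγ y y' (fun a => (hs a).2.1) (fun a => (hs' a).2.1)
    ⟨a₀, congrArg (fun z : (ℂ × ℂ) × (ℂ × ℂ) × ℂ => z.2.1) ha⟩
  have hx2 : ∀ a, (s a).1 = (s' a).1 := fun a => DFunLike.congr_fun hx a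
  have hy2 : ∀ a, (s a).2.1 = (s' a).2.1 := fun a => DFunLike.congr_fun hy a
  let g : C(A, ℂ) := ⟨fun a => (s a).1.2 - (s a).2.1.2,
    (continuous_snd.comp (continuous_fst.comp s.continuous)).sub
      (continuous_snd.comp (continuous_fst.comp (continuous_snd.comp s.continuous)))⟩
  have hm : m = m' := exp_uniq A g m m' (fun a => (hs a).2.2.2) (fun a => by
    show Complex.exp (s' a).2.2 = (s a).1.2 - (s a).2.1.2
    rw [hx2 a, hy2 a]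
    exact (hs' a).2.2.2) ⟨a₀, congrArg (fun z : (ℂ × ℂ) × (ℂ × ℂ) × ℂ => z.2.2) ha⟩
  refine ContinuousMap.ext fun a => Prod.ext (hx2 a) (Prod.ext (hy2 a) ?_)
  exact DFunLike.congr_fun hm a

/-- The system of the logarithms of differences of points of the same colour. -/
def CSys.lS (Z : CSys k) : Sys k ((ℂ × ℂ) × (ℂ × ℂ) × ℂ) where
  F := Z.lF
  perm := cl_perm Z
  lift := fun A => cl_lift Z A
  uniq := fun A => cl_uniq Z A

/-- The point `(a, b, l)` of the fibre over the base configuration. -/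
def CSys.lp (Z : CSys k) (a b : Z.B) (l : ℂ) (hs : Z.Same a b) (h : Complex.exp l = Z.pt a - Z.pt b) :
    Z.lS.F (base k) :=
  ⟨((a : ℂ × ℂ), (b : ℂ × ℂ), l), a.2, b.2, hs, h⟩

theorem exp_log_pt {a b : Z.B} (hs : Z.Same a b) (h : a ≠ b) :
    Complex.exp (Complex.log (Z.pt a - Z.pt b)) = Z.pt a - Z.pt b :=
  Complex.exp_log (sub_ne_zero.2 fun h1 => h (pt_inj Z hs h1))

open Classical in
/-- The generator number `i` with its cocycle. -/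
noncomputable def CSys.wg (Z : CSys k) (i : ℕ) : WG Z.B where
  p := Z.S.s i
  d := fun a b => if h : Z.Same a b ∧ a ≠ b then
    ((Z.lS.s i (Z.lp a b (Complex.log (Z.pt a - Z.pt b)) h.1 (exp_log_pt Z h.1 h.2)) :
      Z.lS.F (base k)) : (ℂ × ℂ) × (ℂ × ℂ) × ℂ).2.2 - Complex.log (Z.pt a - Z.pt b) else 0

@[simp] theorem wg_p (i : ℕ) : (Z.wg i).p = Z.S.s i := rfl

theorem wg_d_ne (i : ℕ) (a b : Z.B) (hs : Z.Same a b) (h : a ≠ b) :
    (Z.wg i).d a b =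
      ((Z.lS.s i (Z.lp a b (Complex.log (Z.pt a - Z.pt b)) hs (exp_log_pt Z hs h)) :
        Z.lS.F (base k)) : (ℂ × ℂ) × (ℂ × ℂ) × ℂ).2.2 - Complex.log (Z.pt a - Z.pt b) := by
  unfold CSys.wg
  exact dif_pos (show Z.Same a b ∧ a ≠ b from ⟨hs, h⟩)

theorem wg_d_zero (i : ℕ) (a b : Z.B) (h : ¬ (Z.Same a b ∧ a ≠ b)) : (Z.wg i).d a b = 0 := by
  unfold CSys.wg
  exact dif_neg h

theorem ne_of_exp {a b : Z.B} {l : ℂ} (h : Complex.exp l = Z.pt a - Z.pt b) : a ≠ b := by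
  intro h1
  rw [h1, sub_self] at h
  exact Complex.exp_ne_zero _ h

private theorem cl_fst (i : ℕ) (hi : i + 1 < k) (a b : Z.B) (l : ℂ) (hs : Z.Same a b)
    (h : Complex.exp l = Z.pt a - Z.pt b) :
    ((Z.lS.s i (Z.lp a b l hs h) : Z.lS.F (base k)) : (ℂ × ℂ) × (ℂ × ℂ) × ℂ).1 = (Z.S.s i a : Z.B).1 :=
  s_map Z.lS Z.S Prod.fst continuous_fst (fun q _ w hw => hw.1) i hi (Z.lp a b l hs h)

private theorem cl_snd (i : ℕ) (hi : i + 1 < k) (a b : Z.B) (l : ℂ) (hs : Z.Same a b)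
    (h : Complex.exp l = Z.pt a - Z.pt b) :
    ((Z.lS.s i (Z.lp a b l hs h) : Z.lS.F (base k)) : (ℂ × ℂ) × (ℂ × ℂ) × ℂ).2.1 =
      (Z.S.s i b : Z.B).1 :=
  s_map Z.lS Z.S (fun w : (ℂ × ℂ) × (ℂ × ℂ) × ℂ => w.2.1) (continuous_fst.comp continuous_snd)
    (fun q _ w hw => hw.2.1) i hi (Z.lp a b l hs h)

private theorem cl_shift (i : ℕ) (hi : i + 1 < k) (a b : Z.B) (l l' : ℂ) (hs : Z.Same a b)
    (h : Complex.exp l = Z.pt a - Z.pt b) (h' : Complex.exp l' = Z.pt a - Z.pt b) :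
    ((Z.lS.s i (Z.lp a b l' hs h') : Z.lS.F (base k)) : (ℂ × ℂ) × (ℂ × ℂ) × ℂ).2.2 - l' =
      ((Z.lS.s i (Z.lp a b l hs h) : Z.lS.F (base k)) : (ℂ × ℂ) × (ℂ × ℂ) × ℂ).2.2 - l := by
  obtain ⟨n, hn⟩ := Complex.exp_eq_exp_iff_exists_int.1 (h'.trans h.symm)
  have h1 := s_map Z.lS Z.lS
    (fun w : (ℂ × ℂ) × (ℂ × ℂ) × ℂ => (w.1, w.2.1, w.2.2 + n * (2 * Real.pi * Complex.I)))
    (by fun_prop)
    (fun q _ w hw => ⟨hw.1, hw.2.1, hw.2.2.1, by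
      show Complex.exp (w.2.2 + n * (2 * Real.pi * Complex.I)) = w.1.2 - w.2.1.2
      rw [Complex.exp_add, Complex.exp_int_mul_two_pi_mul_I, mul_one]
      exact hw.2.2.2⟩) i hi (Z.lp a b l hs h)
  have h0 : Complex.exp (l + n * (2 * Real.pi * Complex.I)) = Z.pt a - Z.pt b := by
    rw [Complex.exp_add, Complex.exp_int_mul_two_pi_mul_I, mul_one]
    exact h
  have h2 : Z.lp a b (l + n * (2 * Real.pi * Complex.I)) hs h0 = Z.lp a b l' hs h' := by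
    refine Subtype.ext (Prod.ext rfl (Prod.ext rfl ?_))
    show l + n * (2 * Real.pi * Complex.I) = l'
    rw [hn]
  have h3 := congrArg (fun w : (ℂ × ℂ) × (ℂ × ℂ) × ℂ => w.2.2) h1
  have h4 : ((Z.lS.s i (Z.lp a b l hs h) : Z.lS.F (base k)) : (ℂ × ℂ) × (ℂ × ℂ) × ℂ).2.2 +
      n * (2 * Real.pi * Complex.I) =
      ((Z.lS.s i (Z.lp a b l' hs h') : Z.lS.F (base k)) : (ℂ × ℂ) × (ℂ × ℂ) × ℂ).2.2 := by
    rw [← h2]
    exact h3
  rw [← h4, hn]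
  ring

theorem cl_act (i : ℕ) (hi : i + 1 < k) (a b : Z.B) (l : ℂ) (hs : Z.Same a b)
    (h : Complex.exp l = Z.pt a - Z.pt b) :
    ((Z.lS.s i (Z.lp a b l hs h) : Z.lS.F (base k)) : (ℂ × ℂ) × (ℂ × ℂ) × ℂ) =
      ((Z.S.s i a : Z.B).1, (Z.S.s i b : Z.B).1, l + (Z.wg i).d a b) := by
  have hab := ne_of_exp Z h
  refine Prod.ext (cl_fst Z i hi a b l hs h) (Prod.ext (cl_snd Z i hi a b l hs h) ?_)
  show ((Z.lS.s i (Z.lp a b l hs h) : Z.lS.F (base k)) : (ℂ × ℂ) × (ℂ × ℂ) × ℂ).2.2 =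
    l + (Z.wg i).d a b
  rw [wg_d_ne Z i a b hs hab,
    cl_shift Z i hi a b l (Complex.log (Z.pt a - Z.pt b)) hs h (exp_log_pt Z hs hab)]
  ring

/-- The action of a generator on a point of the system of the logarithms. -/
theorem s_lp (i : ℕ) (hi : i + 1 < k) (a b : Z.B) (l : ℂ) (hs : Z.Same a b)
    (h : Complex.exp l = Z.pt a - Z.pt b) :
    ∃ (hs' : Z.Same (Z.S.s i a) (Z.S.s i b))
      (h' : Complex.exp (l + (Z.wg i).d a b) = Z.pt (Z.S.s i a) - Z.pt (Z.S.s i b)),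
      Z.lS.s i (Z.lp a b l hs h) = Z.lp (Z.S.s i a) (Z.S.s i b) (l + (Z.wg i).d a b) hs' h' := by
  have h1 := cl_act Z i hi a b l hs h
  have h2 : Complex.exp ((Z.lS.s i (Z.lp a b l hs h) : Z.lS.F (base k)) :
      (ℂ × ℂ) × (ℂ × ℂ) × ℂ).2.2 =
      ((Z.lS.s i (Z.lp a b l hs h) : Z.lS.F (base k)) : (ℂ × ℂ) × (ℂ × ℂ) × ℂ).1.2 -
        ((Z.lS.s i (Z.lp a b l hs h) : Z.lS.F (base k)) : (ℂ × ℂ) × (ℂ × ℂ) × ℂ).2.1.2 :=
    (Z.lS.s i (Z.lp a b l hs h)).2.2.2.2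
  rw [h1] at h2
  exact ⟨(same_s Z i hi a b).2 hs, h2, Subtype.ext h1⟩

theorem wg_good (i : ℕ) (hi : i + 1 < k) : CGood Z.Same Z.pt (Z.wg i) := by
  have key : ∀ a b, Z.Same a b → a ≠ b → (Z.wg i).d a b = (Z.wg i).d b a := by
    intro a b hs hab
    have h0 := exp_log_pt Z hs hab
    set l := Complex.log (Z.pt a - Z.pt b) with hl
    have hπ : ∀ x : ℂ, Complex.exp (x + Real.pi * Complex.I) = - Complex.exp x := fun x => by
      rw [Complex.exp_add, Complex.exp_pi_mul_I, mul_neg_one]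
    have h0' : Complex.exp (l + Real.pi * Complex.I) = Z.pt b - Z.pt a := by
      rw [hπ, h0]
      ring
    have h1 := s_map Z.lS Z.lS
      (fun w : (ℂ × ℂ) × (ℂ × ℂ) × ℂ => (w.2.1, w.1, w.2.2 + Real.pi * Complex.I))
      (by fun_prop)
      (fun q _ w hw => ⟨hw.2.1, hw.1, hw.2.2.1.symm, by
        show Complex.exp (w.2.2 + Real.pi * Complex.I) = w.2.1.2 - w.1.2
        rw [hπ, hw.2.2.2]
        ring⟩) i hi (Z.lp a b l hs h0)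
    have h2 := cl_act Z i hi a b l hs h0
    have h3 := cl_act Z i hi b a (l + Real.pi * Complex.I) (same_symm Z hs) h0'
    have h4 := congrArg (fun w : (ℂ × ℂ) × (ℂ × ℂ) × ℂ => w.2.2) h1
    have h5 : ((Z.lS.s i (Z.lp a b l hs h0) : Z.lS.F (base k)) : (ℂ × ℂ) × (ℂ × ℂ) × ℂ).2.2 +
        Real.pi * Complex.I =
        ((Z.lS.s i (Z.lp b a (l + Real.pi * Complex.I) (same_symm Z hs) h0') : Z.lS.F (base k)) :
          (ℂ × ℂ) × (ℂ × ℂ) × ℂ).2.2 := h4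
    rw [h2, h3] at h5
    have h6 : l + (Z.wg i).d a b + Real.pi * Complex.I =
        l + Real.pi * Complex.I + (Z.wg i).d b a := h5
    linear_combination h6
  refine ⟨fun a b => same_s Z i hi a b, fun a b hs hab => ?_, fun a b => ?_, fun a b h => wg_d_zero Z i a b h⟩
  · obtain ⟨hs', h', -⟩ := s_lp Z i hi a b _ hs (exp_log_pt Z hs hab)
    have h3 : (Z.pt a - Z.pt b) * Complex.exp ((Z.wg i).d a b) =
        Z.pt (Z.S.s i a) - Z.pt (Z.S.s i b) := by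
      rw [← h', Complex.exp_add, exp_log_pt Z hs hab]
    have h4 : Z.pt a - Z.pt b ≠ 0 := sub_ne_zero.2 fun h => hab (pt_inj Z hs h)
    rw [eq_div_iff h4, mul_comm]
    exact h3
  · by_cases hab : Z.Same a b ∧ a ≠ b
    · exact key a b hab.1 hab.2
    · rw [wg_d_zero Z i a b hab, wg_d_zero Z i b a fun h => hab ⟨same_symm Z h.1, h.2.symm⟩]

private theorem nb_s (i : ℕ) (hi : i + 1 < k) {a b : Z.B} (h : ¬ (Z.Same a b ∧ a ≠ b)) :
    ¬ (Z.Same (Z.S.s i a) (Z.S.s i b) ∧ Z.S.s i a ≠ Z.S.s i b) := by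
  rintro ⟨h1, h2⟩
  exact h ⟨(same_s Z i hi a b).1 h1, fun h3 => h2 (by rw [h3])⟩

theorem wg_comm (i j : ℕ) (hij : i + 2 ≤ j) (hj : j + 1 < k) :
    Z.wg i * Z.wg j = Z.wg j * Z.wg i := by
  have hi : i + 1 < k := by omega
  refine WG.ext (Z.S.s_comm i j hij hj) (funext fun a => funext fun b => ?_)
  show (Z.wg j).d a b + (Z.wg i).d (Z.S.s j a) (Z.S.s j b) =
    (Z.wg i).d a b + (Z.wg j).d (Z.S.s i a) (Z.S.s i b)
  by_cases hab : Z.Same a b ∧ a ≠ b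
  swap
  · rw [wg_d_zero Z j a b hab, wg_d_zero Z i a b hab, wg_d_zero Z i _ _ (nb_s Z j hj hab),
      wg_d_zero Z j _ _ (nb_s Z i hi hab)]
  obtain ⟨hs, hab⟩ := hab
  have h0 := exp_log_pt Z hs hab
  set l := Complex.log (Z.pt a - Z.pt b) with hl
  obtain ⟨c1, e1, h1⟩ := s_lp Z j hj a b l hs h0
  obtain ⟨c2, e2, h2⟩ := s_lp Z i hi (Z.S.s j a) (Z.S.s j b) _ c1 e1
  obtain ⟨c3, e3, h3⟩ := s_lp Z i hi a b l hs h0
  obtain ⟨c4, e4, h4⟩ := s_lp Z j hj (Z.S.s i a) (Z.S.s i b) _ c3 e3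
  have h5 := DFunLike.congr_fun (Z.lS.s_comm i j hij hj) (Z.lp a b l hs h0)
  rw [Equiv.Perm.mul_apply, Equiv.Perm.mul_apply, h1, h2, h3, h4] at h5
  have h6 := congrArg (fun w : Z.lS.F (base k) => (w : (ℂ × ℂ) × (ℂ × ℂ) × ℂ).2.2) h5
  have h7 : l + (Z.wg j).d a b + (Z.wg i).d (Z.S.s j a) (Z.S.s j b) =
      l + (Z.wg i).d a b + (Z.wg j).d (Z.S.s i a) (Z.S.s i b) := h6
  linear_combination h7

theorem wg_braid (i : ℕ) (hi : i + 2 < k) :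
    Z.wg i * Z.wg (i + 1) * Z.wg i = Z.wg (i + 1) * Z.wg i * Z.wg (i + 1) := by
  have hi1 : i + 1 < k := by omega
  have hi2 : i + 1 + 1 < k := by omega
  refine WG.ext (Z.S.s_braid i hi) (funext fun a => funext fun b => ?_)
  show (Z.wg i).d a b + ((Z.wg (i + 1)).d (Z.S.s i a) (Z.S.s i b) +
      (Z.wg i).d (Z.S.s (i + 1) (Z.S.s i a)) (Z.S.s (i + 1) (Z.S.s i b))) =
    (Z.wg (i + 1)).d a b + ((Z.wg i).d (Z.S.s (i + 1) a) (Z.S.s (i + 1) b) +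
      (Z.wg (i + 1)).d (Z.S.s i (Z.S.s (i + 1) a)) (Z.S.s i (Z.S.s (i + 1) b)))
  by_cases hab : Z.Same a b ∧ a ≠ b
  swap
  · rw [wg_d_zero Z i a b hab, wg_d_zero Z (i + 1) a b hab, wg_d_zero Z (i + 1) _ _ (nb_s Z i hi1 hab),
      wg_d_zero Z i _ _ (nb_s Z (i + 1) hi2 hab),
      wg_d_zero Z i _ _ (nb_s Z (i + 1) hi2 (nb_s Z i hi1 hab)),
      wg_d_zero Z (i + 1) _ _ (nb_s Z i hi1 (nb_s Z (i + 1) hi2 hab))]
  obtain ⟨hs, hab⟩ := hab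
  have h0 := exp_log_pt Z hs hab
  set l := Complex.log (Z.pt a - Z.pt b) with hl
  obtain ⟨c1, e1, h1⟩ := s_lp Z i hi1 a b l hs h0
  obtain ⟨c2, e2, h2⟩ := s_lp Z (i + 1) hi2 (Z.S.s i a) (Z.S.s i b) _ c1 e1
  obtain ⟨c3, e3, h3⟩ := s_lp Z i hi1 (Z.S.s (i + 1) (Z.S.s i a)) (Z.S.s (i + 1) (Z.S.s i b)) _ c2 e2
  obtain ⟨d1, f1, g1⟩ := s_lp Z (i + 1) hi2 a b l hs h0
  obtain ⟨d2, f2, g2⟩ := s_lp Z i hi1 (Z.S.s (i + 1) a) (Z.S.s (i + 1) b) _ d1 f1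
  obtain ⟨d3, f3, g3⟩ := s_lp Z (i + 1) hi2 (Z.S.s i (Z.S.s (i + 1) a)) (Z.S.s i (Z.S.s (i + 1) b)) _ d2 f2
  have h5 := DFunLike.congr_fun (Z.lS.s_braid i hi) (Z.lp a b l hs h0)
  rw [Equiv.Perm.mul_apply, Equiv.Perm.mul_apply, Equiv.Perm.mul_apply, Equiv.Perm.mul_apply,
    h1, h2, h3, g1, g2, g3] at h5
  have h6 := congrArg (fun w : Z.lS.F (base k) => (w : (ℂ × ℂ) × (ℂ × ℂ) × ℂ).2.2) h5
  have h7 : l + (Z.wg i).d a b + (Z.wg (i + 1)).d (Z.S.s i a) (Z.S.s i b) +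
      (Z.wg i).d (Z.S.s (i + 1) (Z.S.s i a)) (Z.S.s (i + 1) (Z.S.s i b)) =
    l + (Z.wg (i + 1)).d a b + (Z.wg i).d (Z.S.s (i + 1) a) (Z.S.s (i + 1) b) +
      (Z.wg (i + 1)).d (Z.S.s i (Z.S.s (i + 1) a)) (Z.S.s i (Z.S.s (i + 1) b)) := h6
  linear_combination h7

end Pool.Agent.Helper83.LN6
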