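import Pool.Agent.Helper83.LN6.CCornA

/-!
# LN6-C8 (MP_730da0_ag): (Tr), `σ₀⁻¹ σ₂` does not move the classes

Paper proof.  `g = σ₀⁻¹ σ₂`, `a_j = g^j a`; suppose `a_1 ≠ a_0` and `n₀ = n₂ = κ` on `(a_0, a_1)`; then the same for all `(a_j, a_(j+1))` (`inv..`; `R (a_j) (a_(j+1))`).  `W x (u - πi) (v + πi) = W (g x) u v` (`tru` at `u - πi`, `trv`, `hc`).
Put `δ_j(t) = L_(a_j a_(j+1))(-t - πi, -t + πi) - L_(a_j a_(j+1))(-t, -t)`.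
(1) `δ_j - δ_(j+1) → 0`: if `a_j ≠ a_(j+2)`: the pairs `(a_(j+1), a_j)`, `(a_(j+1), a_(j+2))` share a point and have equal windings; `L_(xy) - L_(yx)` is constant on `Hl ×ˢ Hl` (continuous, `exp = -1`, connected); `diag` (`p = q = 1`), `vertuv` with `y = -π`, `z = π`.
If `a_j = a_(j+2)`: again `L_(xy) - L_(yx)` constant, so `δ_j = δ_(j+1)`.
(2) `L_(a_0 a_1)(u - jπi, v + jπi) - L_(a_j a_(j+1))(u, v)` is constant on `Hl ×ˢ Hl` (continuous, `exp = 1`).  So `Σ_(j < M) δ_j(t) = L_(a_0 a_1)(-t - Mπi, -t + Mπi) - L_(a_0 a_1)(-t, -t) = 2πi (κ - κ) = 0` (`Ltru`, `Ltrv`).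
(3) So `M δ_0(t) → 0`, all `δ_j → 0`, `D_(j+1)/D_j → 1` for `D_j = (W_(a_j) - W_(a_(j+1)))(-t,-t)` (`exp δ_j = D_(j+1)/D_j`), so `D_j/D_0 → 1`.  But `Σ_(j < M) D_j = W_(a_0) - W_(a_M) = 0` (`g^M = 1` by `pu`, `pv`, `hc`), so `0 = Σ D_j/D_0 → M > 0`.  Contradiction.
-/

namespace Pool.Agent.Helper83.LN6

open Pool.Agent.Helper96.LN3

variable {F : Type} {R : F → F → Prop} {σ₀ σ₂ : Equiv.Perm F} {n₀ n₂ : F → F → ℤ} {M : ℕ}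
  {W : F → ℂ → ℂ → ℂ} {L : F → F → ℂ → ℂ → ℂ}

theorem CFam.tr (h : CFam R σ₀ σ₂ n₀ n₂ M W L) (κ : ℤ) (h₀ : ∀ a b, R a b → a ≠ b → κ ≤ n₀ a b)
    (h₂ : ∀ a b, R a b → a ≠ b → κ ≤ n₂ a b) (hc : ∀ a, σ₀ (σ₂ a) = σ₂ (σ₀ a))
    (hR : ∀ a, R (σ₀ a) (σ₂ a)) (a : F) :
    σ₀⁻¹ (σ₂ a) = a ∨ κ < n₀ a (σ₀⁻¹ (σ₂ a)) ∨ κ < n₂ a (σ₀⁻¹ (σ₂ a)) := by
  by_contra hcon
  push Not at hcon
  obtain ⟨hne, h1, h2⟩ := hcon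
  have hinv : ∀ x, σ₀ (σ₀⁻¹ x) = x := fun x => σ₀.apply_symm_apply x
  have hrel : R a (σ₀⁻¹ (σ₂ a)) := by
    rw [← h.rel₀, hinv]
    exact hR a
  have hgR : ∀ x y, R x y → R (σ₀⁻¹ (σ₂ x)) (σ₀⁻¹ (σ₂ y)) := by
    intro x y hxy
    rw [← h.rel₀, hinv, hinv, h.rel₂]
    exact hxy
  have hgn : ∀ x y, x ≠ y → σ₀⁻¹ (σ₂ x) ≠ σ₀⁻¹ (σ₂ y) := fun x y hxy h3 =>
    hxy (σ₂.injective (σ₀⁻¹.injective h3))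
  have e1 : ∀ (n : F → F → ℤ), (∀ x y, R x y → x ≠ y → n (σ₀ x) (σ₀ y) = n x y) →
      (∀ x y, R x y → x ≠ y → n (σ₂ x) (σ₂ y) = n x y) → ∀ x y, R x y → x ≠ y →
      n (σ₀⁻¹ (σ₂ x)) (σ₀⁻¹ (σ₂ y)) = n x y := by
    intro n hn0 hn2 x y hxy hxne
    rw [← hn0 _ _ (hgR x y hxy) (hgn x y hxne), hinv, hinv, hn2 x y hxy hxne]
  have hr' : R a (σ₀⁻¹ (σ₂ a)) ∧ a ≠ σ₀⁻¹ (σ₂ a) := ⟨hrel, Ne.symm hne⟩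
  refine h.toR.tr h.pM (fun x y hxy => ⟨h.rel.symm hxy.1, hxy.2.symm⟩)
    (fun x y z hxy hyz hxz => ⟨h.rel.trans hxy.1 hyz.1, hxz⟩) (fun x y hxy => ⟨hgR x y hxy.1, hgn x y hxy.2⟩)
    (Equiv.ext fun x => hc x) (fun x y hxy => e1 n₀ h.inv₀₀ h.inv₀₂ x y hxy.1 hxy.2)
    (fun x y hxy => e1 n₂ h.inv₂₀ h.inv₂₂ x y hxy.1 hxy.2) (fun x y hxy => h.sym₀ x y hxy.1 hxy.2)
    (fun x y hxy => h.sym₂ x y hxy.1 hxy.2) a hr' ?_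
  have h3 := h₀ _ _ hrel (Ne.symm hne)
  have h4 := h₂ _ _ hrel (Ne.symm hne)
  show n₀ a (σ₀⁻¹ (σ₂ a)) = n₂ a (σ₀⁻¹ (σ₂ a))
  omega

end Pool.Agent.Helper83.LN6
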