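import Pool.Agent.Helper83.LN6.CCornA

/-!
# LN6-C7 (MP_730da0_ag): the windings are ultrametric

Paper proof of `ultra₀`.  Suppose `n₀ a c < n₀ a b` and `n₀ a c < n₀ b c`.  Fix `v = -1`.  `logOn_u` for `(a; b, c)` and for `(c; b, a)`; `one_var` (Helper96/LN3/OneVar.lean; the period `M π i` of the quotient: `tru` `M` times with `pu`, of the logarithm: `Ltru`):
`L_ab(-t, v) - L_ac(-t, v) + 2 (n₀ a b - n₀ a c) t / M` converges, so `(W_a - W_b)/(W_a - W_c) → 0`; in the same way (`sym₀`) `(W_c - W_b)/(W_c - W_a) → 0`.  The sum of the two quotients is `1`.  Contradiction.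
`ultra₂`: `swap`.
-/

namespace Pool.Agent.Helper83.LN6

open Pool.Agent.Helper96.LN3

variable {F : Type} {R : F → F → Prop} {σ₀ σ₂ : Equiv.Perm F} {n₀ n₂ : F → F → ℤ} {M : ℕ}
  {W : F → ℂ → ℂ → ℂ} {L : F → F → ℂ → ℂ → ℂ}

theorem CFam.ultra₀ (h : CFam R σ₀ σ₂ n₀ n₂ M W L) (a b c : F) (hab : R a b) (hbc : R b c)
    (h1 : a ≠ b) (h2 : b ≠ c) (h3 : a ≠ c) : min (n₀ a b) (n₀ b c) ≤ n₀ a c := by
  by_contra hcon
  push Not at hcon
  have hac : R a c := h.rel.trans hab hbc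
  have h4 := h.toR.ultra_u h.pM (fun x y hxy => ⟨h.rel.symm hxy.1, hxy.2.symm⟩) a b c ⟨hab, h1⟩ ⟨hac, h3⟩
    ⟨hbc, h2⟩ (lt_of_lt_of_le hcon (min_le_left _ _))
  rw [h.sym₀ c b (h.rel.symm hbc) h2.symm, h.sym₀ c a (h.rel.symm hac) h3.symm] at h4
  have h5 := lt_of_lt_of_le hcon (min_le_right _ _)
  omega

theorem CFam.ultra₂ (h : CFam R σ₀ σ₂ n₀ n₂ M W L) (a b c : F) (hab : R a b) (hbc : R b c)
    (h1 : a ≠ b) (h2 : b ≠ c) (h3 : a ≠ c) : min (n₂ a b) (n₂ b c) ≤ n₂ a c :=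
  h.swap.ultra₀ a b c hab hbc h1 h2 h3

end Pool.Agent.Helper83.LN6
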